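import Mathlib

/-!
Definitions used in the statements about the sets `C_n` and `D_n` of Tunnell's criterion.
-/

namespace Pool.Agent.H24

/-- The number of elements of `C_n`, the set of integer triples with `n = 8x^2 + 2y^2 + 64z^2`. -/
noncomputable def cardC (n : ℕ) : ℕ :=
  Set.ncard {p : ℤ × ℤ × ℤ | (n : ℤ) = 8 * p.1 ^ 2 + 2 * p.2.1 ^ 2 + 64 * p.2.2 ^ 2}

/-- The number of elements of `D_n`, the set of integer triples with `n = 8x^2 + 2y^2 + 16z^2`. -/
noncomputable def cardD (n : ℕ) : ℕ :=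
  Set.ncard {p : ℤ × ℤ × ℤ | (n : ℤ) = 8 * p.1 ^ 2 + 2 * p.2.1 ^ 2 + 16 * p.2.2 ^ 2}

/-- The number of representations of `m` as an ordered sum of three integer squares. -/
noncomputable def r3 (m : ℕ) : ℕ :=
  Set.ncard {p : ℤ × ℤ × ℤ | (m : ℤ) = p.1 ^ 2 + p.2.1 ^ 2 + p.2.2 ^ 2}

/-- The number of integer pairs `(x, y)` with `x^2 + d y^2 = m`. -/
noncomputable def r2 (d m : ℕ) : ℕ := Set.ncard {p : ℤ × ℤ | p.1 ^ 2 + d * p.2 ^ 2 = (m : ℤ)}

/-- The number of integer pairs `(x, y)` with `x^2 + d y^2 = m` and `y` odd. -/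
noncomputable def r2odd (d m : ℕ) : ℕ :=
  Set.ncard {p : ℤ × ℤ | p.1 ^ 2 + d * p.2 ^ 2 = (m : ℤ) ∧ Odd p.2}

/-- The sum of `χ(x) x` over the pairs `(x, y)` with `x` a positive integer, `y` an integer and
`x^2 + d y^2 = m`, where `χ` is the nontrivial Dirichlet character modulo 4. The summation ranges
contain all such pairs when `d` is positive, and `x = 0` contributes nothing. -/
noncomputable def cm (d m : ℕ) : ℤ :=
  ∑ x ∈ Finset.range (m + 1), ∑ y ∈ Finset.Icc (-(m : ℤ)) m,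
    if (x : ℤ) ^ 2 + d * y ^ 2 = m then ZMod.χ₄ x * x else 0

open Classical in
/-- The number of true statements among `p = 1 mod 32` and `p = x^2 + 256 y^2` for some integers
`x` and `y`. -/
noncomputable def sp (p : ℕ) : ℤ :=
  (if p % 32 = 1 then 1 else 0) + (if ∃ x y : ℤ, (p : ℤ) = x ^ 2 + 256 * y ^ 2 then 1 else 0)

end Pool.Agent.H24
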