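import Pool.Agent.H24.Extract

/-!
The two main congruences between coefficients of theta products.
-/

namespace Pool.Agent.H24

open PowerSeries

theorem ps_even : ∃ F : PowerSeries ℤ, ps = 2 * F := by
  refine ⟨gen (fun n : ℕ => tri n) (fun _ => 1), ?_⟩
  rw [ps, gen_split Fib_tri (fun j => 0 ≤ j)]
  have h1 : gen (fun n : ℕ => tri n) (fun _ => 1)
      = gen tri (fun j => if 0 ≤ j then 1 else 0) := by
    refine gen_inj (fun n : ℕ => (n : ℤ)) (fun a b h => by simpa using h) ?_ ?_ ?_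
    · intro i hi
      refine ⟨i.toNat, ?_⟩
      by_contra h
      apply hi
      rw [if_neg]
      intro h2
      exact h (Int.toNat_of_nonneg h2)
    · intro k
      rfl
    · intro k
      rw [if_pos (by omega)]
  have h2 : gen (fun n : ℕ => tri n) (fun _ => 1)
      = gen tri (fun j => if 0 ≤ j then 0 else 1) := by
    refine gen_inj (fun n : ℕ => -1 - (n : ℤ)) (fun a b h => by simpa using h) ?_ ?_ ?_
    · intro i hi
      refine ⟨(-1 - i).toNat, ?_⟩
      by_contra h
      apply hi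
      rw [if_pos]
      by_contra h2
      apply h
      rw [Int.toNat_of_nonneg (by omega)]
      ring
    · intro k
      have h3 := two_tri (k : ℤ)
      have h4 := two_tri (-1 - (k : ℤ))
      zify
      linarith
    · intro k
      rw [if_neg (by omega)]
  rw [← h1, ← h2]
  ring

/-- The theta series of the positive squares. -/
noncomputable def tt : PowerSeries ℤ := gen (fun n : ℕ => (n + 1) ^ 2) (fun _ => 1)

theorem Fib_tt : Fib (fun n : ℕ => (n + 1) ^ 2) := by
  intro n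
  refine (Set.finite_Iic n).subset ?_
  intro x hx
  simp only [Set.mem_ofPred_eq] at hx
  simp only [Set.mem_Iic]
  nlinarith

theorem th_tt : th = 1 + 2 * tt := by
  rw [th, gen_split Fib_sqN (fun j => j = 0)]
  have h0 : gen sqN (fun j => if j = 0 then 1 else 0) = 1 := by
    have h1 : gen (fun _ : Unit => 0) (fun _ => 1) = gen sqN (fun j => if j = 0 then 1 else 0) := by
      refine gen_inj (fun _ : Unit => (0 : ℤ)) (fun a b h => rfl) ?_ ?_ ?_
      · intro i hi
        refine ⟨(), ?_⟩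
        by_contra h
        apply hi
        rw [if_neg (fun h2 => h h2.symm)]
      · intro k
        simp [sqN]
      · intro k
        simp
    rw [← h1]
    exact gen_one rfl rfl
  rw [h0]
  congr 1
  rw [gen_split Fib_sqN (fun j => 0 < j)]
  have h1 : tt = gen sqN (fun j => if 0 < j then (if j = 0 then 0 else 1) else 0) := by
    rw [tt]
    refine gen_inj (fun n : ℕ => ((n : ℤ) + 1)) (fun a b h => by simpa using h) ?_ ?_ ?_
    · intro i hi
      refine ⟨(i - 1).toNat, ?_⟩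
      by_contra h
      apply hi
      rw [if_neg]
      intro h2
      apply h
      rw [Int.toNat_of_nonneg (by omega)]
      ring
    · intro k
      zify
      rw [sqN_cast]
    · intro k
      rw [if_pos (by omega), if_neg (by omega)]
  have h2 : tt = gen sqN (fun j => if 0 < j then 0 else (if j = 0 then 0 else 1)) := by
    rw [tt]
    refine gen_inj (fun n : ℕ => -((n : ℤ) + 1)) (fun a b h => by simpa using h) ?_ ?_ ?_
    · intro i hi
      refine ⟨(-i - 1).toNat, ?_⟩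
      by_contra h
      apply hi
      by_cases h3 : 0 < i
      · rw [if_pos h3]
      · rw [if_neg h3, if_pos]
        by_contra h2
        apply h
        rw [Int.toNat_of_nonneg (by omega)]
        ring
    · intro k
      zify
      rw [sqN_cast]
      ring
    · intro k
      rw [if_neg (by omega), if_neg (by omega)]
  rw [← h1, ← h2]
  ring

theorem tt_sq : ∃ F : PowerSeries ℤ, tt ^ 2 = E2 tt + 2 * F := by
  have hF : Fib (fun p : ℕ × ℕ => (p.1 + 1) ^ 2 + (p.2 + 1) ^ 2) := Fib_tt.prod Fib_tt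
  refine ⟨gen (fun p : ℕ × ℕ => (p.1 + 1) ^ 2 + (p.2 + 1) ^ 2)
    (fun p => if p.1 < p.2 then 1 else 0), ?_⟩
  have h1 : tt ^ 2 = gen (fun p : ℕ × ℕ => (p.1 + 1) ^ 2 + (p.2 + 1) ^ 2) (fun _ => 1) := by
    rw [tt, pow_two, gen_mul Fib_tt Fib_tt]
    exact gen_congr (fun _ => rfl) (fun _ => one_mul _)
  have h2 : E2 tt = gen (fun p : ℕ × ℕ => (p.1 + 1) ^ 2 + (p.2 + 1) ^ 2)
      (fun p => if p.1 = p.2 then 1 else 0) := by
    rw [tt, expand_gen]
    refine gen_inj (fun n : ℕ => (n, n)) (fun a b h => by simpa using h) ?_ ?_ ?_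
    · rintro ⟨a, b⟩ hi
      refine ⟨a, ?_⟩
      by_contra h
      apply hi
      rw [if_neg]
      intro h3
      simp only at h3
      exact h (by rw [h3])
    · intro k
      simp only
      ring
    · intro k
      simp
  have h3 : gen (fun p : ℕ × ℕ => (p.1 + 1) ^ 2 + (p.2 + 1) ^ 2)
      (fun p => if p.2 < p.1 then 1 else 0) = gen (fun p : ℕ × ℕ => (p.1 + 1) ^ 2 + (p.2 + 1) ^ 2)
      (fun p => if p.1 < p.2 then 1 else 0) := by
    refine gen_equiv (Equiv.prodComm ℕ ℕ) ?_ ?_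
    · rintro ⟨a, b⟩
      change (a + 1) ^ 2 + (b + 1) ^ 2 = (b + 1) ^ 2 + (a + 1) ^ 2
      ring
    · rintro ⟨a, b⟩
      rfl
  have h4 : tt ^ 2 = E2 tt + (gen (fun p : ℕ × ℕ => (p.1 + 1) ^ 2 + (p.2 + 1) ^ 2)
      (fun p => if p.1 < p.2 then 1 else 0) + gen (fun p : ℕ × ℕ => (p.1 + 1) ^ 2 + (p.2 + 1) ^ 2)
      (fun p => if p.2 < p.1 then 1 else 0)) := by
    rw [h1, h2, ← gen_add hF, ← gen_add hF]
    refine gen_congr (fun _ => rfl) ?_
    rintro ⟨a, b⟩
    simp only
    split_ifs <;> omega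
  rw [h4, h3]
  ring

theorem odd_part (F : PowerSeries ℤ) : ∃ G : PowerSeries ℤ, F - evalNegHom F = 2 * G := by
  refine ⟨PowerSeries.mk fun n => if n % 2 = 1 then coeff n F else 0, ?_⟩
  ext n
  rw [map_sub, coeff_evalNeg, coeff_two_mul, coeff_mk]
  split_ifs with h
  · rw [Odd.neg_one_pow (Nat.odd_iff.2 h)]
    ring
  · rw [Even.neg_one_pow (Nat.even_iff.2 (by omega))]
    ring

/-- The difference `g - g(-q)` modulo 32, where `g = 2 th th(q^2) - th^2`. -/
theorem g_diff : ∃ F : PowerSeries ℤ,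
    (2 * th * E2 th - th ^ 2) - (2 * thn * E2 th - thn ^ 2)
      = th ^ 3 - thn ^ 3 - 3 * (th - thn) + 32 * F := by
  obtain ⟨P, hP⟩ := tt_sq
  obtain ⟨G1, hG1⟩ := odd_part P
  obtain ⟨G2, hG2⟩ := odd_part (tt * P)
  have h1 : thn = 1 + 2 * evalNegHom tt := by
    rw [← evalNeg_th, th_tt, map_add, map_one, map_mul, map_ofNat]
  have h2 : E2 th = 1 + 2 * E2 tt := by
    rw [th_tt, map_add, map_one, map_mul, map_ofNat]
  have h3 : (evalNegHom tt) ^ 2 = E2 tt + 2 * evalNegHom P := by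
    have h4 := congrArg evalNegHom hP
    rwa [map_pow, map_add, map_mul, map_ofNat, evalNeg_E2] at h4
  refine ⟨-(2 * G1 + G2), ?_⟩
  rw [map_mul] at hG2
  rw [h1, h2, th_tt]
  set a := tt
  set b := evalNegHom tt
  set c := E2 tt
  linear_combination (-16 - 8 * a) * hP + (16 + 8 * b) * h3 - 32 * hG1 - 16 * hG2

/-- `g - g(-q)` is divisible by 16. -/
theorem g_diff16 : ∃ F : PowerSeries ℤ,
    (2 * th * E2 th - th ^ 2) - (2 * thn * E2 th - thn ^ 2) = 16 * F := by
  obtain ⟨P, hP⟩ := tt_sq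
  obtain ⟨G1, hG1⟩ := odd_part P
  obtain ⟨G2, hG2⟩ := odd_part tt
  have h1 : thn = 1 + 2 * evalNegHom tt := by
    rw [← evalNeg_th, th_tt, map_add, map_one, map_mul, map_ofNat]
  have h2 : E2 th = 1 + 2 * E2 tt := by
    rw [th_tt, map_add, map_one, map_mul, map_ofNat]
  have h3 : (evalNegHom tt) ^ 2 = E2 tt + 2 * evalNegHom P := by
    have h4 := congrArg evalNegHom hP
    rwa [map_pow, map_add, map_mul, map_ofNat, evalNeg_E2] at h4
  refine ⟨E2 tt * G2 - G1, ?_⟩
  rw [h1, h2, th_tt]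
  set a := tt
  set b := evalNegHom tt
  set c := E2 tt
  linear_combination (-4) * hP + 4 * h3 - 8 * hG1 + 8 * c * hG2

/-- `g + g'` modulo 16, where `g' = 2 thn th(q^2) + thn^2`. -/
theorem g_sum : ∃ F : PowerSeries ℤ,
    (2 * th * E2 th - th ^ 2) + (2 * thn * E2 th + thn ^ 2)
      = 4 + 8 * evalNegHom tt + 8 * E2 tt + 16 * F := by
  obtain ⟨P, hP⟩ := tt_sq
  obtain ⟨G1, hG1⟩ := odd_part P
  obtain ⟨G2, hG2⟩ := odd_part tt
  have h1 : thn = 1 + 2 * evalNegHom tt := by
    rw [← evalNeg_th, th_tt, map_add, map_one, map_mul, map_ofNat]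
  have h2 : E2 th = 1 + 2 * E2 tt := by
    rw [th_tt, map_add, map_one, map_mul, map_ofNat]
  have h3 : (evalNegHom tt) ^ 2 = E2 tt + 2 * evalNegHom P := by
    have h4 := congrArg evalNegHom hP
    rwa [map_pow, map_add, map_mul, map_ofNat, evalNeg_E2] at h4
  refine ⟨E2 tt * (G2 + evalNegHom tt) - G1, ?_⟩
  rw [h1, h2, th_tt]
  set a := tt
  set b := evalNegHom tt
  set c := E2 tt
  linear_combination (-4) * hP + 4 * h3 - 8 * hG1 + 8 * c * hG2

theorem coeff_evalNeg_even (N : ℕ) (hN : N % 2 = 0) (F : PowerSeries ℤ) :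
    coeff N (evalNegHom F) = coeff N F := by
  rw [coeff_evalNeg, Even.neg_one_pow (Nat.even_iff.2 hN), one_mul]

theorem coeff_evalNeg_odd (N : ℕ) (hN : N % 2 = 1) (F : PowerSeries ℤ) :
    coeff N (evalNegHom F) = - coeff N F := by
  rw [coeff_evalNeg, Odd.neg_one_pow (Nat.odd_iff.2 hN)]
  ring

theorem I2 : ps * E2 thn ^ 2 + ph = 2 * (evalNegHom ps * E2 thn * E4 th) := by
  have h1 := ps_thn
  have h2 := th_add_thn
  have h3 := th_mul_thn
  linear_combination ph_eq - ps * h3 + ps * thn * h2 + 2 * E4 th * h1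

theorem evalNeg_part (F : PowerSeries ℤ) : evalNegHom (ps * E2 F) = evalNegHom ps * E2 F := by
  rw [map_mul, evalNeg_E2]

theorem coeff_I2_even (N : ℕ) (hN : N % 2 = 0) (h0 : coeff N ph = 0) :
    coeff N (ps * (2 * E2 thn * E4 th - E2 thn ^ 2)) = 0 := by
  have h1 := congrArg (coeff N) I2
  rw [map_add, h0, add_zero, coeff_two_mul] at h1
  have h2 : evalNegHom ps * E2 thn * E4 th = evalNegHom (ps * E2 (thn * E2 th)) := by
    rw [evalNeg_part, map_mul, E2_E2]
    ring
  rw [h2, coeff_evalNeg_even N hN, map_mul E2, E2_E2] at h1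
  have h3 : ps * (2 * E2 thn * E4 th - E2 thn ^ 2)
      = 2 * (ps * (E2 thn * E4 th)) - ps * E2 thn ^ 2 := by ring
  rw [h3, map_sub, coeff_two_mul, h1]
  ring

theorem coeff_I2_odd (N : ℕ) (hN : N % 2 = 1) (h0 : coeff N ph = 0) :
    coeff N (ps * (2 * E2 thn * E4 th + E2 thn ^ 2)) = 0 := by
  have h1 := congrArg (coeff N) I2
  rw [map_add, h0, add_zero, coeff_two_mul] at h1
  have h2 : evalNegHom ps * E2 thn * E4 th = evalNegHom (ps * E2 (thn * E2 th)) := by
    rw [evalNeg_part, map_mul, E2_E2]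
    ring
  rw [h2, coeff_evalNeg_odd N hN, map_mul E2, E2_E2] at h1
  have h3 : ps * (2 * E2 thn * E4 th + E2 thn ^ 2)
      = 2 * (ps * (E2 thn * E4 th)) + ps * E2 thn ^ 2 := by ring
  rw [h3, map_add, coeff_two_mul, h1]
  ring

theorem coeff_ph_th (N : ℕ) (hN : N % 2 = 0) :
    coeff N (ps * E2 thn ^ 3) = coeff N (ph * th) := by
  have h1 : ph * th = evalNegHom (ps * E2 (thn ^ 3)) := by
    rw [evalNeg_part, map_pow]
    linear_combination th * ph_eq + ps * thn * th_mul_thn + (E2 thn) ^ 2 * ps_thn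
  rw [h1, coeff_evalNeg_even N hN, map_pow]

/-- The congruence modulo 64. -/
theorem main_even (N : ℕ) (hN : N % 2 = 0) (h0 : coeff N ph = 0) : ∃ z : ℤ,
    2 * coeff N (ps * E2 th * E4 th) - coeff N (ps * E2 th ^ 2)
      = coeff N (ps * E2 th ^ 3) - coeff N (ph * th)
        - 3 * (coeff N (ps * E2 th) - coeff N (ps * E2 thn)) + 64 * z := by
  obtain ⟨F, hF⟩ := g_diff
  obtain ⟨q, hq⟩ := ps_even
  have h1 := congrArg E2 hF
  simp only [map_sub, map_add, map_mul, map_pow, map_ofNat, E2_E2] at h1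
  have h2 := coeff_I2_even N hN h0
  have h3 := coeff_ph_th N hN
  refine ⟨coeff N (q * E2 F), ?_⟩
  have h5 : ((2 : ℤ) : PowerSeries ℤ) * (ps * E2 th * E4 th) - ps * E2 th ^ 2 = ps * (2 * E2 thn * E4 th - E2 thn ^ 2)
      + (ps * E2 th ^ 3 - ps * E2 thn ^ 3)
      - ((3 : ℤ) : PowerSeries ℤ) * (ps * E2 th - ps * E2 thn) + ((64 : ℤ) : PowerSeries ℤ) * (q * E2 F) := by
    push_cast
    linear_combination ps * h1 + 32 * E2 F * hq
  have h6 := congrArg (coeff N) h5
  rw [map_sub, map_add, map_sub, map_add, map_sub, coeff_int_mul, coeff_int_mul, coeff_int_mul,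
    map_sub, h2, h3] at h6
  linarith

/-- The congruence modulo 32. -/
theorem main_even16 (N : ℕ) (hN : N % 2 = 0) (h0 : coeff N ph = 0) : ∃ z : ℤ,
    2 * coeff N (ps * E2 th * E4 th) - coeff N (ps * E2 th ^ 2) = 32 * z := by
  obtain ⟨F, hF⟩ := g_diff16
  obtain ⟨q, hq⟩ := ps_even
  have h1 := congrArg E2 hF
  simp only [map_sub, map_mul, map_pow, map_ofNat, E2_E2] at h1
  have h2 := coeff_I2_even N hN h0
  refine ⟨coeff N (q * E2 F), ?_⟩
  have h5 : ((2 : ℤ) : PowerSeries ℤ) * (ps * E2 th * E4 th) - ps * E2 th ^ 2 = ps * (2 * E2 thn * E4 th - E2 thn ^ 2)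
      + ((32 : ℤ) : PowerSeries ℤ) * (q * E2 F) := by
    push_cast
    linear_combination ps * h1 + 16 * E2 F * hq
  have h6 := congrArg (coeff N) h5
  rw [map_sub, map_add, coeff_int_mul, coeff_int_mul, h2] at h6
  linarith

/-- The congruence for odd `N`. -/
theorem main_odd (N : ℕ) (hN : N % 2 = 1) (h0 : coeff N ph = 0) (h0' : coeff N ps = 0) : ∃ z : ℤ,
    2 * coeff N (ps * E2 th * E4 th) - coeff N (ps * E2 th ^ 2)
      = 4 * coeff N (ps * E2 thn) + 4 * coeff N (ps * E4 th) + 32 * z := by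
  obtain ⟨F, hF⟩ := g_sum
  obtain ⟨q, hq⟩ := ps_even
  have h7 : thn = 1 + 2 * evalNegHom tt := by
    rw [← evalNeg_th, th_tt, map_add, map_one, map_mul, map_ofNat]
  have h8 : E2 th = 1 + 2 * E2 tt := by
    rw [th_tt, map_add, map_one, map_mul, map_ofNat]
  have hF' : (2 * th * E2 th - th ^ 2) + (2 * thn * E2 th + thn ^ 2)
      = 4 * thn + 4 * E2 th - 4 + 16 * F := by
    linear_combination hF - 4 * h7 - 4 * h8
  have h1 := congrArg E2 hF'
  simp only [map_sub, map_add, map_mul, map_pow, map_ofNat, E2_E2] at h1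
  have h2 := coeff_I2_odd N hN h0
  refine ⟨coeff N (q * E2 F), ?_⟩
  have h5 : ((2 : ℤ) : PowerSeries ℤ) * (ps * E2 th * E4 th) - ps * E2 th ^ 2
      = - (ps * (2 * E2 thn * E4 th + E2 thn ^ 2))
      + ((4 : ℤ) : PowerSeries ℤ) * (ps * E2 thn + ps * E4 th - ps)
      + ((32 : ℤ) : PowerSeries ℤ) * (q * E2 F) := by
    push_cast
    linear_combination ps * h1 + 16 * E2 F * hq
  have h6 := congrArg (coeff N) h5
  rw [map_sub, map_add, map_add, coeff_int_mul, coeff_int_mul, coeff_int_mul, map_neg, h2,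
    map_sub, map_add, h0'] at h6
  linarith

end Pool.Agent.H24
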