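import Pool.Agent.H24.Cong
import Pool.Agent.H24.Defs

/-!
Numbers of representations by ternary and binary forms as coefficients of theta products.
-/

namespace Pool.Agent.H24

open PowerSeries

theorem gen_prod3 (a b c : ℕ) (ha : a ≠ 0) (hb : b ≠ 0) (hc : c ≠ 0) {d1 d2 d3 : ℤ → ℕ}
    (h1 : Fib d1) (h2 : Fib d2) (h3 : Fib d3) :
    gen (fun x => a * d1 x) (fun _ => 1) * gen (fun x => b * d2 x) (fun _ => 1)
      * gen (fun x => c * d3 x) (fun _ => 1)
    = gen (fun p : (ℤ × ℤ) × ℤ => a * d1 p.1.1 + b * d2 p.1.2 + c * d3 p.2) (fun _ => 1) := by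
  rw [gen_mul (h1.smul a ha) (h2.smul b hb),
    gen_mul ((h1.smul a ha).prod (h2.smul b hb)) (h3.smul c hc)]
  exact gen_congr (fun _ => rfl) (fun _ => by ring)

theorem Fib_prod3 (a b c : ℕ) (ha : a ≠ 0) (hb : b ≠ 0) (hc : c ≠ 0) {d1 d2 d3 : ℤ → ℕ}
    (h1 : Fib d1) (h2 : Fib d2) (h3 : Fib d3) :
    Fib (fun p : (ℤ × ℤ) × ℤ => a * d1 p.1.1 + b * d2 p.1.2 + c * d3 p.2) :=
  ((h1.smul a ha).prod (h2.smul b hb)).prod (h3.smul c hc)

theorem expand_th (k : ℕ) (hk : k ≠ 0) : expand k hk th = gen (fun x => k * sqN x) (fun _ => 1) := by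
  rw [th, expand_gen]

theorem th_one : th = gen (fun x => 1 * sqN x) (fun _ => 1) := by
  rw [th]
  exact gen_congr (fun _ => (one_mul _).symm) (fun _ => rfl)

theorem ps_one : ps = gen (fun x => 1 * tri x) (fun _ => 1) := by
  rw [ps]
  exact gen_congr (fun _ => (one_mul _).symm) (fun _ => rfl)

theorem sq_odd_eq (j : ℤ) : (2 * j + 1) ^ 2 = 8 * (tri j : ℤ) + 1 := by
  have := two_tri j
  linarith

/-- If `8N + 1 = 4a^2 + b^2 + 8c` then `a` is even and `b` is odd. -/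
theorem parity_aux {N a b c : ℤ} (h : 8 * N + 1 = 4 * a ^ 2 + b ^ 2 + 8 * c) :
    (∃ x, a = 2 * x) ∧ ∃ j, b = 2 * j + 1 := by
  rcases Int.even_or_odd' b with ⟨j, rfl | rfl⟩
  · exfalso
    ring_nf at h
    omega
  · refine ⟨?_, j, rfl⟩
    rcases Int.even_or_odd' a with ⟨x, rfl | rfl⟩
    · exact ⟨x, rfl⟩
    · exfalso
      have h1 := sq_odd_eq j
      have h2 := sq_odd_eq x
      rw [h1, h2] at h
      omega

theorem coeff_cardC (N : ℕ) : (cardC (2 * (8 * N + 1)) : ℤ) = coeff N (ps * E2 th * E4 th) := by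
  have hF := Fib_prod3 1 2 4 (by norm_num) (by norm_num) (by norm_num) Fib_tri Fib_sqN Fib_sqN
  rw [expand_th, expand_th, ps_one,
    gen_prod3 1 2 4 (by norm_num) (by norm_num) (by norm_num) Fib_tri Fib_sqN Fib_sqN,
    coeff_gen_one hF]
  congr 1
  symm
  refine Set.ncard_congr (fun p _ => (2 * p.1.2, 2 * p.1.1 + 1, p.2)) ?_ ?_ ?_
  · rintro ⟨⟨j, x⟩, z⟩ h
    simp only [Set.mem_ofPred_eq] at h ⊢
    zify at h
    rw [sqN_cast, sqN_cast] at h
    rw [sq_odd_eq]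
    push_cast
    linarith
  · rintro ⟨⟨j, x⟩, z⟩ ⟨⟨j', x'⟩, z'⟩ _ _ h
    simp only [Prod.mk.injEq] at h ⊢
    omega
  · rintro ⟨a, b, c⟩ h
    simp only [Set.mem_ofPred_eq] at h
    push_cast at h
    obtain ⟨⟨x, rfl⟩, ⟨j, rfl⟩⟩ := parity_aux (N := N) (a := a) (b := b) (c := 4 * c ^ 2)
      (by linarith)
    refine ⟨((j, x), c), ?_, rfl⟩
    simp only [Set.mem_ofPred_eq]
    zify
    rw [sqN_cast, sqN_cast]
    rw [sq_odd_eq] at h
    linarith

theorem coeff_cardD (N : ℕ) : (cardD (2 * (8 * N + 1)) : ℤ) = coeff N (ps * E2 th * th) := by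
  have hF := Fib_prod3 1 2 1 (by norm_num) (by norm_num) (by norm_num) Fib_tri Fib_sqN Fib_sqN
  rw [expand_th, th_one, ps_one,
    gen_prod3 1 2 1 (by norm_num) (by norm_num) (by norm_num) Fib_tri Fib_sqN Fib_sqN,
    coeff_gen_one hF]
  congr 1
  symm
  refine Set.ncard_congr (fun p _ => (2 * p.1.2, 2 * p.1.1 + 1, p.2)) ?_ ?_ ?_
  · rintro ⟨⟨j, x⟩, z⟩ h
    simp only [Set.mem_ofPred_eq] at h ⊢
    zify at h
    rw [sqN_cast, sqN_cast] at h
    rw [sq_odd_eq]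
    push_cast
    linarith
  · rintro ⟨⟨j, x⟩, z⟩ ⟨⟨j', x'⟩, z'⟩ _ _ h
    simp only [Prod.mk.injEq] at h ⊢
    omega
  · rintro ⟨a, b, c⟩ h
    simp only [Set.mem_ofPred_eq] at h
    push_cast at h
    obtain ⟨⟨x, rfl⟩, ⟨j, rfl⟩⟩ := parity_aux (N := N) (a := a) (b := b) (c := c ^ 2)
      (by linarith)
    refine ⟨((j, x), c), ?_, rfl⟩
    simp only [Set.mem_ofPred_eq]
    zify
    rw [sqN_cast, sqN_cast]
    rw [sq_odd_eq] at h
    linarith

theorem coeff_r3 (m : ℕ) : (r3 m : ℤ) = coeff m (th ^ 3) := by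
  have hF := Fib_prod3 1 1 1 (by norm_num) (by norm_num) (by norm_num) Fib_sqN Fib_sqN Fib_sqN
  have h3 : th ^ 3 = th * th * th := by ring
  rw [h3, th_one,
    gen_prod3 1 1 1 (by norm_num) (by norm_num) (by norm_num) Fib_sqN Fib_sqN Fib_sqN,
    coeff_gen_one hF]
  congr 1
  symm
  refine Set.ncard_congr (fun p _ => (p.1.1, p.1.2, p.2)) ?_ ?_ ?_
  · rintro ⟨⟨j, x⟩, z⟩ h
    simp only [Set.mem_ofPred_eq] at h ⊢
    zify at h
    rw [sqN_cast, sqN_cast, sqN_cast] at h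
    linarith
  · rintro ⟨⟨j, x⟩, z⟩ ⟨⟨j', x'⟩, z'⟩ _ _ h
    simp only [Prod.mk.injEq] at h ⊢
    tauto
  · rintro ⟨a, b, c⟩ h
    simp only [Set.mem_ofPred_eq] at h
    refine ⟨((a, b), c), ?_, rfl⟩
    simp only [Set.mem_ofPred_eq]
    zify
    rw [sqN_cast, sqN_cast, sqN_cast]
    linarith

theorem coeff_X_E4_two (k a : ℕ) (F : PowerSeries ℤ) (ha : a ≤ 3) :
    coeff (4 * k + 2) (X ^ a * E4 F) = if a = 2 then coeff k F else 0 := by
  rw [coeff_X_pow_mul']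
  split_ifs with h1 h2 h2
  · subst h2
    rw [Nat.add_sub_cancel, coeff_expand_mul]
  · exact coeff_expand_of_not_dvd 4 _ _ (by omega)
  · omega
  · rfl

theorem coeff_th_even (k : ℕ) (F : PowerSeries ℤ) :
    coeff (2 * k) (th * E2 F) = coeff k (E2 th * F) := by
  have h1 := coeff_double k (th * E2 F)
  have h2 : th * E2 F + evalNegHom (th * E2 F) = ((2 : ℤ) : PowerSeries ℤ) * E2 (E2 th * F) := by
    rw [map_mul, evalNeg_E2, evalNeg_th, map_mul, E2_E2]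
    push_cast
    linear_combination E2 F * th_add_thn
  rw [h2, coeff_int_mul, coeff_expand_mul] at h1
  linarith

theorem r3_double (N : ℕ) : (r3 (2 * (8 * N + 1)) : ℤ) = 6 * coeff N (ps * E2 th * th) := by
  rw [coeff_r3]
  have h1 : th ^ 3 = X ^ 0 * E4 (th ^ 3) + X ^ 1 * E4 (3 * th ^ 2 * E2 ps)
      + X ^ 2 * E4 (3 * th * E2 ps ^ 2) + X ^ 3 * E4 (E2 ps ^ 3) := by
    conv_lhs => rw [th_eq]
    simp only [map_mul, map_pow, map_ofNat, E4_E2]
    ring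
  have h2 : 2 * (8 * N + 1) = 4 * (2 * (2 * N)) + 2 := by ring
  rw [h1, h2, map_add, map_add, map_add, coeff_X_E4_two _ _ _ (by norm_num),
    coeff_X_E4_two _ _ _ (by norm_num), coeff_X_E4_two _ _ _ (by norm_num),
    coeff_X_E4_two _ _ _ (by norm_num)]
  simp only [if_true]
  rw [if_neg (by norm_num), if_neg (by norm_num), if_neg (by norm_num), zero_add, add_zero,
    zero_add]
  have h3 : 3 * th * E2 ps ^ 2 = ((6 : ℤ) : PowerSeries ℤ) * (th * E2 (th * E2 ps)) := by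
    have h4 := congrArg E2 ps_sq
    rw [map_pow, map_mul, map_ofNat] at h4
    push_cast
    linear_combination 3 * th * h4
  rw [h3, coeff_int_mul, coeff_th_even]
  have h4 : E2 th * (th * E2 ps) = th * E2 (th * ps) := by
    rw [map_mul]
    ring
  rw [h4, coeff_th_even]
  congr 2
  ring

theorem coeff_ph_zero (N : ℕ) (h : ¬ IsSquare (8 * N + 1)) (w : ℤ → ℤ) :
    coeff N (gen tri w) = 0 := by
  rw [coeff_gen, finsum_eq_zero_of_forall_eq_zero]
  intro j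
  rw [if_neg]
  intro h1
  apply h
  refine ⟨(2 * j + 1).natAbs, ?_⟩
  zify
  rw [← pow_two, sq_abs, sq_odd_eq, h1]

theorem r3_eq (N : ℕ) (h : ¬ IsSquare (8 * N + 1)) :
    (r3 (8 * N + 1) : ℤ) = 6 * coeff N (ps * E2 th ^ 2) := by
  rw [coeff_r3, coeff_th_cube]
  have h0 : coeff N ph = 0 := coeff_ph_zero N h _
  have h1 : ps * th ^ 2 = ((2 : ℤ) : PowerSeries ℤ) * (ps * E2 th ^ 2) - ph := by
    push_cast
    linear_combination ps * th_sq_add + ph_eq
  rw [h1, map_sub, h0, coeff_int_mul]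
  ring

theorem coeff_r2 (k N : ℕ) (hk : k ≠ 0) :
    (r2 (8 * k) (8 * N + 1) : ℤ) = coeff N (ps * expand k hk th) := by
  rw [expand_th, ps, gen_mul Fib_tri (Fib_sqN.smul k hk)]
  have h1 : (fun p : ℤ × ℤ => (1 : ℤ) * 1) = fun _ => 1 := by
    funext p
    ring
  rw [h1, coeff_gen_one (Fib_tri.prod (Fib_sqN.smul k hk))]
  congr 1
  symm
  refine Set.ncard_congr (fun p _ => (2 * p.1 + 1, p.2)) ?_ ?_ ?_
  · rintro ⟨j, x⟩ h
    simp only [Set.mem_ofPred_eq] at h ⊢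
    zify at h
    rw [sqN_cast] at h
    rw [sq_odd_eq]
    push_cast
    linarith
  · rintro ⟨j, x⟩ ⟨j', x'⟩ _ _ h
    simp only [Prod.mk.injEq] at h ⊢
    omega
  · rintro ⟨b, c⟩ h
    simp only [Set.mem_ofPred_eq] at h
    push_cast at h
    obtain ⟨_, ⟨j, rfl⟩⟩ := parity_aux (N := N) (a := 0) (b := b) (c := k * c ^ 2)
      (by linarith)
    refine ⟨(j, c), ?_, rfl⟩
    simp only [Set.mem_ofPred_eq]
    zify
    rw [sqN_cast]
    rw [sq_odd_eq] at h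
    linarith

theorem th_sub_gen : th - E4 th = gen sqN (fun x => if x % 2 = 0 then 0 else 1) := by
  have h1 := gen_split Fib_sqN (fun x => x % 2 = 0) (fun _ => 1)
  have h2 : gen sqN (fun i => if i % 2 = 0 then 1 else 0) = E4 th := by
    rw [th, expand_gen]
    symm
    refine gen_inj (fun x : ℤ => 2 * x) (fun a b h => by simpa using h) ?_ ?_ ?_
    · intro i hi
      refine ⟨i / 2, ?_⟩
      by_contra h
      apply hi
      rw [if_neg (by omega)]
    · intro k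
      zify
      rw [sqN_cast, sqN_cast]
      ring
    · intro k
      rw [if_pos (by omega)]
  rw [h2] at h1
  have h4 : th = E4 th + gen sqN (fun x => if x % 2 = 0 then 0 else 1) := h1
  linear_combination h4

theorem coeff_r2odd (N : ℕ) :
    (r2odd 16 (8 * N + 1) : ℤ) = coeff N (ps * E2 (th - E4 th)) := by
  rw [th_sub_gen, ps, expand_gen, gen_mul Fib_tri (Fib_sqN.smul 2 (by norm_num))]
  have hF : Fib (fun p : ℤ × ℤ => tri p.1 + 2 * sqN p.2) :=
    Fib_tri.prod (Fib_sqN.smul 2 (by norm_num))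
  have h1 : gen (fun p : ℤ × ℤ => tri p.1 + 2 * sqN (2 * p.2 + 1)) (fun _ => 1)
      = gen (fun p : ℤ × ℤ => tri p.1 + 2 * sqN p.2)
        (fun p => 1 * if p.2 % 2 = 0 then 0 else 1) := by
    refine gen_inj (fun p : ℤ × ℤ => (p.1, 2 * p.2 + 1)) ?_ ?_ ?_ ?_
    · rintro ⟨a, b⟩ ⟨c, d⟩ h
      simp only [Prod.mk.injEq] at h ⊢
      omega
    · rintro ⟨a, b⟩ hi
      refine ⟨(a, (b - 1) / 2), ?_⟩
      simp only [Prod.mk.injEq, true_and]
      by_contra h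
      apply hi
      simp only
      rw [if_pos (by omega)]
      ring
    · rintro ⟨a, b⟩
      rfl
    · rintro ⟨a, b⟩
      simp only
      rw [if_neg (by omega)]
      ring
  have hF' : Fib (fun p : ℤ × ℤ => tri p.1 + 2 * sqN (2 * p.2 + 1)) := by
    refine hF.of_le (fun p : ℤ × ℤ => (p.1, 2 * p.2 + 1)) ?_ (fun _ => le_refl _)
    rintro ⟨a, b⟩ ⟨c, d⟩ h
    simp only [Prod.mk.injEq] at h ⊢
    omega
  rw [← h1, coeff_gen_one hF']
  congr 1
  symm
  refine Set.ncard_congr (fun p _ => (2 * p.1 + 1, 2 * p.2 + 1)) ?_ ?_ ?_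
  · rintro ⟨j, x⟩ h
    simp only [Set.mem_ofPred_eq] at h ⊢
    refine ⟨?_, ⟨x, rfl⟩⟩
    zify at h
    rw [sqN_cast] at h
    rw [sq_odd_eq]
    push_cast
    linarith
  · rintro ⟨j, x⟩ ⟨j', x'⟩ _ _ h
    simp only [Prod.mk.injEq] at h ⊢
    omega
  · rintro ⟨b, c⟩ ⟨h, ⟨x, rfl⟩⟩
    push_cast at h
    obtain ⟨_, ⟨j, rfl⟩⟩ := parity_aux (N := N) (a := 0) (b := b) (c := 2 * (2 * x + 1) ^ 2)
      (by linarith)
    refine ⟨(j, x), ?_, rfl⟩
    simp only [Set.mem_ofPred_eq]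
    zify
    rw [sqN_cast]
    rw [sq_odd_eq] at h
    linarith

theorem r2odd_four (N : ℕ) : ∃ z : ℤ, (r2odd 16 (8 * N + 1) : ℤ) = 4 * z := by
  obtain ⟨q, hq⟩ := ps_even
  refine ⟨coeff N (q * (X ^ 2 * E2 (E8 q))), ?_⟩
  rw [coeff_r2odd, th_sub_E4, map_mul E2, expand_X]
  have h8 : E8 ps = 2 * E8 q := by rw [hq, map_mul, map_ofNat]
  have h1 : ps * (X ^ 2 * E2 (E8 ps)) = ((4 : ℤ) : PowerSeries ℤ) * (q * (X ^ 2 * E2 (E8 q))) := by
    rw [h8, map_mul, map_ofNat]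
    push_cast
    linear_combination (X ^ 2 * (2 * E2 (E8 q))) * hq
  rw [h1, coeff_int_mul]

theorem coeff_diff (N : ℕ) : coeff N (ps * E2 th) - coeff N (ps * E2 thn)
    = 2 * (r2odd 16 (8 * N + 1) : ℤ) := by
  rw [coeff_r2odd, ← coeff_two_mul, ← map_sub]
  congr 1
  have h1 := congrArg E2 th_add_thn
  rw [map_add, map_mul, map_ofNat] at h1
  rw [map_sub]
  linear_combination (-ps) * h1

theorem chi_even (x : ℕ) (h : x % 2 = 0) : ZMod.χ₄ (x : ZMod 4) = 0 := by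
  rw [ZMod.χ₄_nat_eq_if_mod_four]
  rw [if_pos h]

theorem chi_odd (j : ℕ) : ZMod.χ₄ ((2 * j + 1 : ℕ) : ZMod 4) = sg j := by
  rw [ZMod.χ₄_nat_eq_if_mod_four]
  unfold sg
  rw [if_neg (by omega)]
  by_cases h : j % 2 = 0
  · rw [if_pos (by omega), if_pos (by omega)]
  · rw [if_neg (by omega), if_neg (by omega)]

theorem coeff_cm (k N : ℕ) (hk : k ≠ 0) :
    coeff N (ph * expand k hk th) = 2 * cm (8 * k) (8 * N + 1) := by
  rw [expand_th, ph, gen_mul Fib_tri (Fib_sqN.smul k hk)]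
  have hF : Fib (fun p : ℤ × ℤ => tri p.1 + k * sqN p.2) := Fib_tri.prod (Fib_sqN.smul k hk)
  have h1 : gen (fun p : ℕ × ℤ => tri p.1 + k * sqN p.2) (fun p => sg p.1 * (2 * p.1 + 1))
      = gen (fun p : ℤ × ℤ => tri p.1 + k * sqN p.2)
        (fun p => if 0 ≤ p.1 then sg p.1 * (2 * p.1 + 1) * 1 else 0) := by
    refine gen_inj (fun p : ℕ × ℤ => ((p.1 : ℤ), p.2)) ?_ ?_ ?_ ?_
    · rintro ⟨a, b⟩ ⟨c, d⟩ h
      simp only [Prod.mk.injEq] at h ⊢
      omega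
    · rintro ⟨a, b⟩ hi
      refine ⟨(a.toNat, b), ?_⟩
      simp only [Prod.mk.injEq, and_true]
      by_contra h
      apply hi
      simp only
      rw [if_neg (by omega)]
    · rintro ⟨a, b⟩
      rfl
    · rintro ⟨a, b⟩
      simp only
      rw [if_pos (by omega), mul_one]
  have h2 : gen (fun p : ℕ × ℤ => tri p.1 + k * sqN p.2) (fun p => sg p.1 * (2 * p.1 + 1))
      = gen (fun p : ℤ × ℤ => tri p.1 + k * sqN p.2)
        (fun p => if 0 ≤ p.1 then 0 else sg p.1 * (2 * p.1 + 1) * 1) := by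
    refine gen_inj (fun p : ℕ × ℤ => (-1 - (p.1 : ℤ), p.2)) ?_ ?_ ?_ ?_
    · rintro ⟨a, b⟩ ⟨c, d⟩ h
      simp only [Prod.mk.injEq] at h ⊢
      omega
    · rintro ⟨a, b⟩ hi
      refine ⟨((-1 - a).toNat, b), ?_⟩
      simp only [Prod.mk.injEq, and_true]
      by_contra h
      apply hi
      simp only
      rw [if_pos (by omega)]
    · rintro ⟨a, b⟩
      have h3 := two_tri (a : ℤ)
      have h4 := two_tri (-1 - (a : ℤ))
      simp only
      zify
      linarith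
    · rintro ⟨a, b⟩
      simp only
      rw [if_neg (by omega), sg_congr_neg (a := -1 - (a : ℤ)) (b := a) (by omega)]
      ring
  rw [gen_split hF (fun p => 0 ≤ p.1), ← h1, ← h2, ← two_mul, coeff_two_mul]
  congr 1
  have h3 : X ^ 1 * E8 (gen (fun p : ℕ × ℤ => tri p.1 + k * sqN p.2)
      (fun p => sg p.1 * (2 * p.1 + 1)))
      = gen (fun p : ℕ × ℤ => p.1 ^ 2 + 8 * k * sqN p.2) (fun p => ZMod.χ₄ p.1 * p.1) := by
    rw [expand_gen, X_pow_mul_gen]
    refine gen_inj (fun p : ℕ × ℤ => (2 * p.1 + 1, p.2)) ?_ ?_ ?_ ?_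
    · rintro ⟨a, b⟩ ⟨c, d⟩ h
      simp only [Prod.mk.injEq] at h ⊢
      omega
    · rintro ⟨a, b⟩ hi
      refine ⟨((a - 1) / 2, b), ?_⟩
      simp only [Prod.mk.injEq, and_true]
      by_contra h
      apply hi
      simp only
      rw [chi_even a (by omega), zero_mul]
    · rintro ⟨a, b⟩
      have h3 := sq_odd_eq (a : ℤ)
      simp only
      zify
      linarith
    · rintro ⟨a, b⟩
      simp only
      rw [chi_odd]
      push_cast
      ring
  have h4 : coeff N (gen (fun p : ℕ × ℤ => tri p.1 + k * sqN p.2)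
      (fun p => sg p.1 * (2 * p.1 + 1))) = coeff (8 * N + 1)
      (gen (fun p : ℕ × ℤ => p.1 ^ 2 + 8 * k * sqN p.2) (fun p => ZMod.χ₄ p.1 * p.1)) := by
    rw [← h3, coeff_X_pow_mul', if_pos (by omega), Nat.add_sub_cancel, coeff_expand_mul]
  rw [h4, coeff_gen_sum _ _ (Finset.range (8 * N + 1 + 1) ×ˢ
    Finset.Icc (-((8 * N + 1 : ℕ) : ℤ)) ((8 * N + 1 : ℕ) : ℤ)), Finset.sum_product, cm]
  · refine Finset.sum_congr rfl fun x _ => Finset.sum_congr rfl fun y _ => ?_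
    simp only
    have h5 : (x ^ 2 + 8 * k * sqN y = 8 * N + 1) ↔
        ((x : ℤ) ^ 2 + ((8 * k : ℕ) : ℤ) * y ^ 2 = ((8 * N + 1 : ℕ) : ℤ)) := by
      zify
      rw [sqN_cast]
    by_cases h6 : x ^ 2 + 8 * k * sqN y = 8 * N + 1
    · rw [if_pos h6, if_pos (h5.1 h6)]
    · rw [if_neg h6, if_neg (fun h7 => h6 (h5.2 h7))]
  · rintro ⟨x, y⟩ h
    simp only at h
    simp only [Finset.mem_product, Finset.mem_range, Finset.mem_Icc]
    have h6 : sqN y ≤ 8 * N + 1 := by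
      have : 1 * sqN y ≤ 8 * k * sqN y := Nat.mul_le_mul_right _ (by omega)
      omega
    have h7 : x ^ 2 ≤ 8 * N + 1 := by omega
    zify at h6
    rw [sqN_cast] at h6
    refine ⟨?_, ?_, ?_⟩
    · nlinarith
    · push_cast
      nlinarith
    · push_cast
      nlinarith

end Pool.Agent.H24
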