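import Pool.Agent.H24.Jacobi

/-!
Extraction of coefficients: representation numbers as coefficients of theta products.
-/

namespace Pool.Agent.H24

open PowerSeries

theorem coeff_E4_zero (k : ℕ) (F : PowerSeries ℤ) : coeff (4 * k + 1) (E4 F) = 0 :=
  coeff_expand_of_not_dvd 4 _ _ (by omega)

theorem coeff_X_E4 (k a : ℕ) (F : PowerSeries ℤ) (ha : a ≤ 3) :
    coeff (4 * k + 1) (X ^ a * E4 F) = if a = 1 then coeff k F else 0 := by
  rw [coeff_X_pow_mul']
  split_ifs with h1 h2 h2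
  · subst h2
    rw [Nat.add_sub_cancel, coeff_expand_mul]
  · exact coeff_expand_of_not_dvd 4 _ _ (by omega)
  · omega
  · rfl

theorem th_eq : th = E4 th + X * E8 ps := by
  linear_combination th_sub_E4

theorem coeff_double (k : ℕ) (F : PowerSeries ℤ) :
    2 * coeff (2 * k) F = coeff (2 * k) (F + evalNegHom F) := by
  rw [map_add, coeff_evalNeg, pow_mul]
  simp
  ring

theorem coeff_th_cube (N : ℕ) : coeff (8 * N + 1) (th ^ 3) = 3 * coeff N (ps * th ^ 2) := by
  have h1 : th ^ 3 = E4 (th ^ 3) + X ^ 1 * E4 (3 * th ^ 2 * E2 ps)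
      + X ^ 2 * E4 (3 * th * E2 ps ^ 2) + X ^ 3 * E4 (E2 ps ^ 3) := by
    conv_lhs => rw [th_eq]
    simp only [map_mul, map_pow, map_ofNat, E4_E2]
    ring
  have h2 : 8 * N + 1 = 4 * (2 * N) + 1 := by ring
  rw [h1, h2, map_add, map_add, map_add, coeff_E4_zero, coeff_X_E4 _ _ _ (by norm_num),
    coeff_X_E4 _ _ _ (by norm_num), coeff_X_E4 _ _ _ (by norm_num)]
  simp only [if_true, zero_add]
  rw [if_neg (by norm_num), if_neg (by norm_num), add_zero, add_zero]
  have h3 := coeff_double N (3 * th ^ 2 * E2 ps)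
  have h4 : 3 * th ^ 2 * E2 ps + evalNegHom (3 * th ^ 2 * E2 ps) = ((2 * 3 : ℤ) : PowerSeries ℤ) * E2 (ps * th ^ 2) := by
    simp only [map_mul, map_pow, map_ofNat, evalNeg_E2, evalNeg_th]
    push_cast
    linear_combination 3 * E2 ps * th_sq_add
  rw [h4, coeff_int_mul, coeff_expand_mul] at h3
  linarith

theorem coeff_th_four (N : ℕ) : coeff (8 * N + 1) (th ^ 4)
    = 4 * coeff N (ps * E2 th * (2 * th ^ 2 - thn ^ 2)) := by
  have h1 : th ^ 4 = E4 (th ^ 4 + X * E2 ps ^ 4) + X ^ 1 * E4 (4 * th ^ 3 * E2 ps)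
      + X ^ 2 * E4 (6 * th ^ 2 * E2 ps ^ 2) + X ^ 3 * E4 (4 * th * E2 ps ^ 3) := by
    conv_lhs => rw [th_eq]
    simp only [map_add, map_mul, map_pow, map_ofNat, E4_E2, expand_X]
    ring
  have h2 : 8 * N + 1 = 4 * (2 * N) + 1 := by ring
  rw [h1, h2, map_add, map_add, map_add, coeff_E4_zero, coeff_X_E4 _ _ _ (by norm_num),
    coeff_X_E4 _ _ _ (by norm_num), coeff_X_E4 _ _ _ (by norm_num)]
  simp only [if_true, zero_add]
  rw [if_neg (by norm_num), if_neg (by norm_num), add_zero, add_zero]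
  have h3 := coeff_double N (4 * th ^ 3 * E2 ps)
  have h4 : 4 * th ^ 3 * E2 ps + evalNegHom (4 * th ^ 3 * E2 ps)
      = ((2 * 4 : ℤ) : PowerSeries ℤ) * E2 (ps * E2 th * (2 * th ^ 2 - thn ^ 2)) := by
    simp only [map_mul, map_pow, map_sub, map_ofNat, evalNeg_E2, evalNeg_th, E2_E2]
    push_cast
    linear_combination 4 * E2 ps * (th ^ 2 - th * thn + thn ^ 2) * th_add_thn
      + 8 * E2 ps * E4 th * th_sq_add - 8 * E2 ps * E4 th * th_mul_thn
  rw [h4, coeff_int_mul, coeff_expand_mul] at h3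
  linarith

theorem coeff_th_four_odd (m : ℕ) (hm : m % 2 = 1) :
    coeff m (th ^ 4) = 8 * (ArithmeticFunction.sigma 1 m : ℤ) := by
  have h1 := congrArg (coeff m) thn_four
  have h2 : thn ^ 4 = evalNegHom (th ^ 4) := by
    rw [map_pow, evalNeg_th]
  have h48 : (48 : PowerSeries ℤ) = ((48 : ℤ) : PowerSeries ℤ) := by norm_num
  have h64 : (64 : PowerSeries ℤ) = ((64 : ℤ) : PowerSeries ℤ) := by norm_num
  have h8 : (8 : PowerSeries ℤ) = ((8 : ℤ) : PowerSeries ℤ) := by norm_num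
  rw [h2, coeff_evalNeg, Odd.neg_one_pow (Nat.odd_iff.2 hm), map_sub, map_add, map_sub, h48, h64,
    h8, coeff_int_mul, coeff_int_mul, coeff_int_mul, coeff_one, if_neg (by omega),
    coeff_expand_of_not_dvd 2 _ _ (by omega), coeff_expand_of_not_dvd 4 _ _ (by omega),
    sig, coeff_mk] at h1
  linarith

theorem sigma_formula (N : ℕ) : 2 * (ArithmeticFunction.sigma 1 (8 * N + 1) : ℤ)
    = 4 * coeff N (ps * E2 th ^ 3) - 3 * coeff N (ph * E2 th) := by
  have h1 := coeff_th_four N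
  rw [coeff_th_four_odd _ (by omega)] at h1
  have h2 : ps * E2 th * (2 * th ^ 2 - thn ^ 2)
      = ((4 : ℤ) : PowerSeries ℤ) * (ps * E2 th ^ 3) - ((3 : ℤ) : PowerSeries ℤ) * (ph * E2 th) := by
    push_cast
    linear_combination 2 * ps * E2 th * th_sq_add + 3 * E2 th * ph_eq
  rw [h2, map_sub, coeff_int_mul, coeff_int_mul] at h1
  linarith

end Pool.Agent.H24
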