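import Pool.Agent.H24.Count

/-!
Coefficient extraction for integers congruent to 5 modulo 8.
-/

namespace Pool.Agent.H24

open PowerSeries

/-- If `8N + 5 = 4a^2 + b^2 + 8c` then `a` and `b` are odd. -/
theorem parity_five {N a b c : ℤ} (h : 8 * N + 5 = 4 * a ^ 2 + b ^ 2 + 8 * c) :
    (∃ x, a = 2 * x + 1) ∧ ∃ j, b = 2 * j + 1 := by
  rcases Int.even_or_odd' b with ⟨j, rfl | rfl⟩
  · exfalso
    ring_nf at h
    omega
  · refine ⟨?_, j, rfl⟩
    rcases Int.even_or_odd' a with ⟨x, rfl | rfl⟩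
    · exfalso
      have h1 := sq_odd_eq j
      rw [h1] at h
      ring_nf at h
      omega
    · exact ⟨x, rfl⟩

theorem coeff_card_five (N k : ℕ) (hk : k ≠ 0) (c : ℤ) (hc : c = 16 * k)
    (S : Set (ℤ × ℤ × ℤ)) (hS : S = {p : ℤ × ℤ × ℤ | ((2 * (8 * N + 5) : ℕ) : ℤ)
      = 8 * p.1 ^ 2 + 2 * p.2.1 ^ 2 + c * p.2.2 ^ 2}) :
    (S.ncard : ℤ) = coeff N (ps * E4 ps * expand k hk th) := by
  have hF := Fib_prod3 1 4 k (by norm_num) (by norm_num) hk Fib_tri Fib_tri Fib_sqN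
  have e4 : E4 ps = gen (fun x => 4 * tri x) (fun _ => 1) := by rw [ps, expand_gen]
  rw [expand_th, e4, ps_one, gen_prod3 1 4 k (by norm_num) (by norm_num) hk Fib_tri Fib_tri Fib_sqN,
    coeff_gen_one hF]
  congr 1
  symm
  rw [hS]
  refine Set.ncard_congr (fun p _ => (2 * p.1.2 + 1, 2 * p.1.1 + 1, p.2)) ?_ ?_ ?_
  · rintro ⟨⟨j, x⟩, z⟩ h
    simp only [Set.mem_ofPred_eq] at h ⊢
    zify at h
    rw [sqN_cast] at h
    rw [sq_odd_eq, sq_odd_eq, hc]
    push_cast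
    linarith
  · rintro ⟨⟨j, x⟩, z⟩ ⟨⟨j', x'⟩, z'⟩ _ _ h
    simp only [Prod.mk.injEq] at h ⊢
    omega
  · rintro ⟨a, b, d⟩ h
    simp only [Set.mem_ofPred_eq] at h
    push_cast at h
    obtain ⟨⟨x, rfl⟩, ⟨j, rfl⟩⟩ := parity_five (N := N) (a := a) (b := b) (c := k * d ^ 2)
      (by rw [hc] at h; linarith)
    refine ⟨((j, x), d), ?_, rfl⟩
    simp only [Set.mem_ofPred_eq]
    zify
    rw [sqN_cast]
    rw [sq_odd_eq, sq_odd_eq, hc] at h
    linarith

theorem coeff_cardC_five (N : ℕ) :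
    (cardC (2 * (8 * N + 5)) : ℤ) = coeff N (ps * E4 ps * E4 th) := by
  rw [cardC]
  exact coeff_card_five N 4 (by norm_num) 64 (by norm_num) _ rfl

theorem coeff_cardD_five (N : ℕ) :
    (cardD (2 * (8 * N + 5)) : ℤ) = coeff N (ps * E4 ps * th) := by
  have h := coeff_card_five N 1 (by norm_num) 16 (by norm_num) _ rfl
  rw [expand_one_apply] at h
  rw [cardD]
  exact h

theorem coeff_double_odd (k : ℕ) (F : PowerSeries ℤ) :
    2 * coeff (2 * k + 1) F = coeff (2 * k + 1) (F - evalNegHom F) := by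
  rw [map_sub, coeff_evalNeg, Odd.neg_one_pow (odd_two_mul_add_one k)]
  ring

theorem coeff_th_four_five (N : ℕ) : coeff (8 * N + 5) (th ^ 4)
    = 4 * coeff N (ps * E4 ps * (2 * th ^ 2 + thn ^ 2)) := by
  have h1 : th ^ 4 = E4 (th ^ 4 + X * E2 ps ^ 4) + X ^ 1 * E4 (4 * th ^ 3 * E2 ps)
      + X ^ 2 * E4 (6 * th ^ 2 * E2 ps ^ 2) + X ^ 3 * E4 (4 * th * E2 ps ^ 3) := by
    conv_lhs => rw [th_eq]
    simp only [map_add, map_mul, map_pow, map_ofNat, E4_E2, expand_X]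
    ring
  have h2 : 8 * N + 5 = 4 * (2 * N + 1) + 1 := by ring
  rw [h1, h2, map_add, map_add, map_add, coeff_E4_zero, coeff_X_E4 _ _ _ (by norm_num),
    coeff_X_E4 _ _ _ (by norm_num), coeff_X_E4 _ _ _ (by norm_num)]
  simp only [if_true, zero_add]
  rw [if_neg (by norm_num), if_neg (by norm_num), add_zero, add_zero]
  have h3 := coeff_double_odd N (4 * th ^ 3 * E2 ps)
  have h4 : 4 * th ^ 3 * E2 ps - evalNegHom (4 * th ^ 3 * E2 ps)
      = ((2 * 4 : ℤ) : PowerSeries ℤ)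
        * (X ^ 1 * E2 (ps * E4 ps * (2 * th ^ 2 + thn ^ 2))) := by
    simp only [map_mul, map_pow, map_add, map_ofNat, evalNeg_E2, evalNeg_th, E2_E4]
    push_cast
    linear_combination 8 * E2 ps * (th ^ 2 + th * thn + thn ^ 2) * th_sub_E4
      - 4 * E2 ps * (th ^ 2 + th * thn + thn ^ 2) * th_add_thn
      + 8 * X * E2 ps * E8 ps * th_sq_add + 8 * X * E2 ps * E8 ps * th_mul_thn
  rw [h4, coeff_int_mul, coeff_X_pow_mul', if_pos (by omega), Nat.add_sub_cancel,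
    coeff_expand_mul] at h3
  linarith

theorem sigma_five (N : ℕ) : 2 * (ArithmeticFunction.sigma 1 (8 * N + 5) : ℤ)
    = coeff N (ps * E4 ps * (2 * th ^ 2 + thn ^ 2)) := by
  have h1 := coeff_th_four_five N
  rw [coeff_th_four_odd _ (by omega)] at h1
  linarith

/-- The sum over representations by `x^2 + 4y^2`. -/
theorem coeff_cm_five (N : ℕ) :
    coeff N (ph * E4 ps) = 2 * cm 4 (8 * N + 5) := by
  have hF : Fib (fun p : ℤ × ℤ => tri p.1 + 4 * tri p.2) :=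
    Fib_tri.prod (Fib_tri.smul 4 (by norm_num))
  rw [ph, ps, expand_gen, gen_mul Fib_tri (Fib_tri.smul 4 (by norm_num))]
  have h1 : gen (fun p : ℕ × ℤ => tri p.1 + 4 * tri p.2) (fun p => sg p.1 * (2 * p.1 + 1))
      = gen (fun p : ℤ × ℤ => tri p.1 + 4 * tri p.2)
        (fun p => if 0 ≤ p.1 then sg p.1 * (2 * p.1 + 1) * 1 else 0) := by
    refine gen_inj (fun p : ℕ × ℤ => ((p.1 : ℤ), p.2)) ?_ ?_ ?_ ?_
    · rintro ⟨a, b⟩ ⟨c, d⟩ h
      simp only [Prod.mk.injEq] at h ⊢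
      omega
    · rintro ⟨a, b⟩ hi
      refine ⟨(a.toNat, b), ?_⟩
      simp only [Prod.mk.injEq, and_true]
      by_contra h
      apply hi
      simp only
      rw [if_neg (by omega)]
    · rintro ⟨a, b⟩
      rfl
    · rintro ⟨a, b⟩
      simp only
      rw [if_pos (by omega), mul_one]
  have h2 : gen (fun p : ℕ × ℤ => tri p.1 + 4 * tri p.2) (fun p => sg p.1 * (2 * p.1 + 1))
      = gen (fun p : ℤ × ℤ => tri p.1 + 4 * tri p.2)
        (fun p => if 0 ≤ p.1 then 0 else sg p.1 * (2 * p.1 + 1) * 1) := by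
    refine gen_inj (fun p : ℕ × ℤ => (-1 - (p.1 : ℤ), p.2)) ?_ ?_ ?_ ?_
    · rintro ⟨a, b⟩ ⟨c, d⟩ h
      simp only [Prod.mk.injEq] at h ⊢
      omega
    · rintro ⟨a, b⟩ hi
      refine ⟨((-1 - a).toNat, b), ?_⟩
      simp only [Prod.mk.injEq, and_true]
      by_contra h
      apply hi
      simp only
      rw [if_pos (by omega)]
    · rintro ⟨a, b⟩
      have h3 := two_tri (a : ℤ)
      have h4 := two_tri (-1 - (a : ℤ))
      simp only
      zify
      linarith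
    · rintro ⟨a, b⟩
      simp only
      rw [if_neg (by omega), sg_congr_neg (a := -1 - (a : ℤ)) (b := a) (by omega)]
      ring
  rw [gen_split hF (fun p => 0 ≤ p.1), ← h1, ← h2, ← two_mul, coeff_two_mul]
  congr 1
  have h3 : X ^ 5 * E8 (gen (fun p : ℕ × ℤ => tri p.1 + 4 * tri p.2)
      (fun p => sg p.1 * (2 * p.1 + 1)))
      = gen (fun p : ℕ × ℤ => p.1 ^ 2 + 4 * sqN (2 * p.2 + 1)) (fun p => ZMod.χ₄ p.1 * p.1) := by
    rw [expand_gen, X_pow_mul_gen]
    refine gen_inj (fun p : ℕ × ℤ => (2 * p.1 + 1, p.2)) ?_ ?_ ?_ ?_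
    · rintro ⟨a, b⟩ ⟨c, d⟩ h
      simp only [Prod.mk.injEq] at h ⊢
      omega
    · rintro ⟨a, b⟩ hi
      refine ⟨((a - 1) / 2, b), ?_⟩
      simp only [Prod.mk.injEq, and_true]
      by_contra h
      apply hi
      simp only
      rw [chi_even a (by omega), zero_mul]
    · rintro ⟨a, b⟩
      have h3 := sq_odd_eq (a : ℤ)
      have h4 := sq_odd_eq b
      simp only
      zify
      rw [sqN_cast]
      linarith
    · rintro ⟨a, b⟩
      simp only
      rw [chi_odd]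
      push_cast
      ring
  have h4 : coeff N (gen (fun p : ℕ × ℤ => tri p.1 + 4 * tri p.2)
      (fun p => sg p.1 * (2 * p.1 + 1))) = coeff (8 * N + 5)
      (gen (fun p : ℕ × ℤ => p.1 ^ 2 + 4 * sqN (2 * p.2 + 1)) (fun p => ZMod.χ₄ p.1 * p.1)) := by
    rw [← h3, coeff_X_pow_mul', if_pos (by omega), Nat.add_sub_cancel, coeff_expand_mul]
  have h5 : coeff (8 * N + 5)
      (gen (fun p : ℕ × ℤ => p.1 ^ 2 + 4 * sqN (2 * p.2 + 1)) (fun p => ZMod.χ₄ p.1 * p.1))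
      = coeff (8 * N + 5) (gen (fun p : ℕ × ℤ => p.1 ^ 2 + 4 * sqN p.2)
        (fun p => if p.2 % 2 = 1 then ZMod.χ₄ p.1 * p.1 else 0)) := by
    congr 1
    refine gen_inj (fun p : ℕ × ℤ => (p.1, 2 * p.2 + 1)) ?_ ?_ ?_ ?_
    · rintro ⟨a, b⟩ ⟨c, d⟩ h
      simp only [Prod.mk.injEq] at h ⊢
      omega
    · rintro ⟨a, b⟩ hi
      refine ⟨(a, (b - 1) / 2), ?_⟩
      simp only [Prod.mk.injEq, true_and]
      by_contra h
      apply hi
      simp only
      rw [if_neg (by omega)]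
    · rintro ⟨a, b⟩
      rfl
    · rintro ⟨a, b⟩
      simp only
      rw [if_pos (by omega)]
  rw [h4, h5, coeff_gen_sum _ _ (Finset.range (8 * N + 5 + 1) ×ˢ
    Finset.Icc (-((8 * N + 5 : ℕ) : ℤ)) ((8 * N + 5 : ℕ) : ℤ)), Finset.sum_product, cm]
  · refine Finset.sum_congr rfl fun x _ => Finset.sum_congr rfl fun y _ => ?_
    simp only
    have h5 : (x ^ 2 + 4 * sqN y = 8 * N + 5) ↔
        ((x : ℤ) ^ 2 + ((4 : ℕ) : ℤ) * y ^ 2 = ((8 * N + 5 : ℕ) : ℤ)) := by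
      zify
      rw [sqN_cast]
    by_cases h6 : x ^ 2 + 4 * sqN y = 8 * N + 5
    · have h7 := h5.1 h6
      rw [if_pos h6, if_pos h7]
      push_cast at h7
      obtain ⟨⟨t, ht⟩, _⟩ := parity_five (N := N) (a := y) (b := x) (c := 0) (by linarith)
      rw [if_pos (by omega)]
    · rw [if_neg h6, if_neg (fun h7 => h6 (h5.2 h7))]
  · rintro ⟨x, y⟩ h
    simp only at h
    simp only [Finset.mem_product, Finset.mem_range, Finset.mem_Icc]
    have h6 : sqN y ≤ 8 * N + 5 := by omega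
    have h7 : x ^ 2 ≤ 8 * N + 5 := by omega
    zify at h6
    rw [sqN_cast] at h6
    refine ⟨?_, ?_, ?_⟩
    · nlinarith
    · push_cast
      nlinarith
    · push_cast
      nlinarith

/-- The main congruence for integers congruent to 5 modulo 8. -/
theorem main_five (N : ℕ) : ∃ z : ℤ,
    4 * ((cardD (2 * (8 * N + 5)) : ℤ) - cardC (2 * (8 * N + 5)))
      = (ArithmeticFunction.sigma 1 (8 * N + 5) : ℤ) - 3 * cm 4 (8 * N + 5) + 64 * z := by
  obtain ⟨q, hq⟩ := ps_even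
  have hq4 : E4 ps = 2 * E4 q := by rw [hq, map_mul, map_ofNat]
  have hq8 : E8 ps = 2 * E8 q := by rw [hq, map_mul, map_ofNat]
  have ht4 : E4 th = 1 + 2 * E4 tt := by rw [th_tt, map_add, map_one, map_mul, map_ofNat]
  have h1 := sigma_five N
  have h2 := coeff_cm_five N
  have h3 : ps * E4 ps * (2 * th ^ 2 + thn ^ 2) = ((2 : ℤ) : PowerSeries ℤ)
      * (ps * E4 ps * th ^ 2) + ph * E4 ps := by
    push_cast
    linear_combination (-(E4 ps)) * ph_eq
  rw [h3, map_add (coeff N), coeff_int_mul, h2] at h1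
  have h4 : ps * E4 ps * th ^ 2 - ph * E4 ps = ((4 : ℤ) : PowerSeries ℤ) *
      (ps * E4 ps * th - ps * E4 ps * E4 th)
      + ((64 : ℤ) : PowerSeries ℤ) * (X * E8 q * q * E4 q * E4 tt) := by
    push_cast
    have e1 : th ^ 2 - thn ^ 2 = 4 * (th - E4 th) * E4 th := by
      linear_combination (th - thn) * th_add_thn + 2 * E4 th * (-1) * th_add_thn
    have e2 : ps * E4 ps * E8 ps = 8 * (q * E4 q * E8 q) := by
      rw [hq4, hq8]
      linear_combination (2 * E4 q * (2 * E8 q)) * hq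
    linear_combination (-(E4 ps)) * ph_eq + ps * E4 ps * e1
      + 4 * ps * E4 ps * (E4 th - 1) * th_sub_E4 + 4 * X * (E4 th - 1) * e2
      + 32 * X * q * E4 q * E8 q * ht4
  have h5 := congrArg (coeff N) h4
  rw [map_sub, map_add, coeff_int_mul, coeff_int_mul, map_sub, h2] at h5
  rw [coeff_cardC_five, coeff_cardD_five]
  exact ⟨-coeff N (X * E8 q * q * E4 q * E4 tt), by linarith⟩

end Pool.Agent.H24
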