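import Mathlib

/-!
Generating series of weighted graded sets with finite fibres, over the integers.
-/

namespace Pool.Agent.H24

open PowerSeries

/-- Every fibre of the degree function is finite. -/
def Fib {ι : Type*} (d : ι → ℕ) : Prop := ∀ n, {i | d i = n}.Finite

/-- The generating series of the weighted set `w` graded by the degree function `d`. -/
noncomputable def gen {ι : Type*} (d : ι → ℕ) (w : ι → ℤ) : PowerSeries ℤ :=
  PowerSeries.mk fun n => ∑ᶠ i, if d i = n then w i else 0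

theorem coeff_gen {ι : Type*} (d : ι → ℕ) (w : ι → ℤ) (n : ℕ) :
    coeff n (gen d w) = ∑ᶠ i, if d i = n then w i else 0 := by
  simp [gen]

theorem support_sub {ι : Type*} (d : ι → ℕ) (w : ι → ℤ) (n : ℕ) :
    Function.support (fun i => if d i = n then w i else 0) ⊆ {i | d i = n} := by
  intro i hi
  by_contra h
  simp only [Set.mem_ofPred_eq] at h
  simp [h] at hi

theorem Fib.supp {ι : Type*} {d : ι → ℕ} (hd : Fib d) (w : ι → ℤ) (n : ℕ) :
    (Function.support (fun i => if d i = n then w i else 0)).Finite :=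
  (hd n).subset (support_sub d w n)

theorem coeff_gen_sum {ι : Type*} {d : ι → ℕ} (w : ι → ℤ) (n : ℕ) (F : Finset ι)
    (hF : ∀ i, d i = n → i ∈ F) :
    coeff n (gen d w) = ∑ i ∈ F, if d i = n then w i else 0 := by
  rw [coeff_gen]
  apply finsum_eq_sum_of_support_subset
  intro i hi
  exact hF i (support_sub d w n hi)

theorem Fib.of_le {ι κ : Type*} {d : ι → ℕ} (hd : Fib d) {d' : κ → ℕ} (f : κ → ι)
    (hf : Function.Injective f) (h : ∀ k, d (f k) ≤ d' k) : Fib d' := by
  intro n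
  have h1 : (⋃ m ∈ Set.Iic n, {i | d i = m}).Finite :=
    (Set.finite_Iic n).biUnion (fun m _ => hd m)
  have h2 : (f ⁻¹' (⋃ m ∈ Set.Iic n, {i | d i = m})).Finite := h1.preimage hf.injOn
  refine h2.subset ?_
  intro k hk
  simp only [Set.mem_ofPred_eq] at hk
  simp only [Set.mem_preimage, Set.mem_iUnion, Set.mem_Iic, Set.mem_ofPred_eq, exists_prop]
  exact ⟨_, hk ▸ h k, rfl⟩

theorem Fib.finite_le {ι : Type*} {d : ι → ℕ} (hd : Fib d) (n : ℕ) : {i | d i ≤ n}.Finite := by
  have h1 : (⋃ m ∈ Set.Iic n, {i | d i = m}).Finite :=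
    (Set.finite_Iic n).biUnion (fun m _ => hd m)
  refine h1.subset ?_
  intro k hk
  simp only [Set.mem_ofPred_eq] at hk
  simp only [Set.mem_iUnion, Set.mem_Iic, Set.mem_ofPred_eq, exists_prop]
  exact ⟨_, hk, rfl⟩

theorem Fib.prod {ι κ : Type*} {d : ι → ℕ} {d' : κ → ℕ} (hd : Fib d) (hd' : Fib d') :
    Fib (fun p : ι × κ => d p.1 + d' p.2) := by
  intro n
  refine ((hd.finite_le n).prod (hd'.finite_le n)).subset ?_
  rintro ⟨i, k⟩ h
  simp only [Set.mem_ofPred_eq] at h
  simp only [Set.mem_prod, Set.mem_ofPred_eq]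
  omega

theorem gen_congr {ι : Type*} {d d' : ι → ℕ} {w w' : ι → ℤ} (hd : ∀ i, d i = d' i)
    (hw : ∀ i, w i = w' i) : gen d w = gen d' w' := by
  rw [funext hd, funext hw]

theorem gen_congr' {ι : Type*} {d d' : ι → ℕ} {w w' : ι → ℤ} 
    (h : ∀ i, (w i = 0 ∧ w' i = 0) ∨ (d i = d' i ∧ w i = w' i)) : gen d w = gen d' w' := by
  ext n
  rw [coeff_gen, coeff_gen]
  congr 1
  funext i
  rcases h i with ⟨h1, h2⟩ | ⟨h1, h2⟩
  · simp [h1, h2]
  · rw [h1, h2]

theorem gen_equiv {ι κ : Type*} (e : κ ≃ ι) {d : ι → ℕ} {w : ι → ℤ} {d' : κ → ℕ} {w' : κ → ℤ}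
    (hd : ∀ k, d' k = d (e k)) (hw : ∀ k, w' k = w (e k)) : gen d' w' = gen d w := by
  ext n
  rw [coeff_gen, coeff_gen]
  rw [← finsum_comp_equiv e]
  congr 1
  funext k
  rw [hd, hw]

theorem gen_inj {ι κ : Type*} (f : κ → ι) (hf : Function.Injective f) {d : ι → ℕ} {w : ι → ℤ}
    {d' : κ → ℕ} {w' : κ → ℤ} (hs : ∀ i, w i ≠ 0 → ∃ k, f k = i)
    (hd : ∀ k, d' k = d (f k)) (hw : ∀ k, w' k = w (f k)) : gen d' w' = gen d w := by
  ext n
  rw [coeff_gen, coeff_gen]
  have h1 : (∑ᶠ i, if d i = n then w i else 0)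
      = ∑ᶠ i ∈ Set.range f, if d i = n then w i else 0 := by
    rw [← finsum_mem_univ]
    apply finsum_mem_inter_support_eq'
    intro x hx
    simp only [Set.mem_univ, true_iff]
    simp only [Function.mem_support, ne_eq, ite_eq_right_iff, Classical.not_imp] at hx
    exact hs x hx.2
  rw [h1, finsum_mem_range hf]
  congr 1
  funext k
  rw [hd, hw]

theorem gen_add {ι : Type*} {d : ι → ℕ} (hd : Fib d) (w w' : ι → ℤ) :
    gen d (fun i => w i + w' i) = gen d w + gen d w' := by
  ext n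
  rw [map_add, coeff_gen, coeff_gen, coeff_gen, ← finsum_add_distrib (hd.supp w n) (hd.supp w' n)]
  congr 1
  funext i
  split_ifs <;> simp

theorem coeff_int_mul (c : ℤ) (F : PowerSeries ℤ) (n : ℕ) :
    coeff n ((c : PowerSeries ℤ) * F) = c * coeff n F := by
  rw [← zsmul_eq_mul, map_zsmul, smul_eq_mul]

theorem coeff_two_mul (F : PowerSeries ℤ) (n : ℕ) :
    coeff n (2 * F) = 2 * coeff n F := by
  simpa using coeff_int_mul 2 F n

theorem gen_smul {ι : Type*} {d : ι → ℕ} (c : ℤ) (w : ι → ℤ) :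
    gen d (fun i => c * w i) = (c : PowerSeries ℤ) * gen d w := by
  ext n
  rw [coeff_int_mul, coeff_gen, coeff_gen, mul_finsum]
  congr 1
  funext i
  split_ifs <;> simp

theorem gen_neg {ι : Type*} {d : ι → ℕ} (w : ι → ℤ) :
    gen d (fun i => - w i) = - gen d w := by
  have := gen_smul (d := d) (-1) w
  simpa using this

theorem gen_sub {ι : Type*} {d : ι → ℕ} (hd : Fib d) (w w' : ι → ℤ) :
    gen d (fun i => w i - w' i) = gen d w - gen d w' := by
  simp only [sub_eq_add_neg]
  rw [gen_add hd, gen_neg]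

theorem gen_anti {ι : Type*} (e : ι ≃ ι) {d : ι → ℕ} {w : ι → ℤ}
    (hd : ∀ k, d (e k) = d k) (hw : ∀ k, w (e k) = - w k) : gen d w = 0 := by
  have h1 : gen d (fun i => - w i) = gen d w :=
    gen_equiv e (fun k => (hd k).symm) (fun k => (hw k).symm)
  rw [gen_neg] at h1
  ext n
  have h2 := congrArg (coeff n) h1
  simp only [map_neg] at h2
  simp only [map_zero]
  omega

theorem gen_mul {ι κ : Type*} {d : ι → ℕ} {d' : κ → ℕ} (hd : Fib d) (hd' : Fib d')
    (w : ι → ℤ) (w' : κ → ℤ) :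
    gen d w * gen d' w' = gen (fun p : ι × κ => d p.1 + d' p.2) (fun p => w p.1 * w' p.2) := by
  classical
  ext n
  rw [coeff_mul]
  set F := (hd.finite_le n).toFinset with hF
  set G := (hd'.finite_le n).toFinset with hG
  rw [coeff_gen_sum _ n (F ×ˢ G) (by
    rintro ⟨i, k⟩ h
    simp only at h
    simp only [hF, hG, Finset.mem_product, Set.Finite.mem_toFinset, Set.mem_ofPred_eq]
    omega)]
  have h1 : ∀ a ∈ Finset.HasAntidiagonal.antidiagonal n, coeff a.1 (gen d w) * coeff a.2 (gen d' w')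
      = ∑ x ∈ F ×ˢ G, if d x.1 = a.1 ∧ d' x.2 = a.2 then w x.1 * w' x.2 else 0 := by
    rintro ⟨a, b⟩ hab
    rw [Finset.HasAntidiagonal.mem_antidiagonal] at hab
    simp only at hab ⊢
    rw [coeff_gen_sum w a F (by
      intro i h
      simp only [hF, Set.Finite.mem_toFinset, Set.mem_ofPred_eq]
      omega), coeff_gen_sum w' b G (by
      intro i h
      simp only [hG, Set.Finite.mem_toFinset, Set.mem_ofPred_eq]
      omega), Finset.sum_mul_sum, Finset.sum_product]
    refine Finset.sum_congr rfl fun i _ => Finset.sum_congr rfl fun k _ => ?_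
    by_cases h1 : d i = a <;> by_cases h2 : d' k = b <;> simp [h1, h2]
  rw [Finset.sum_congr rfl h1, Finset.sum_comm]
  refine Finset.sum_congr rfl ?_
  rintro ⟨i, k⟩ _
  simp only
  by_cases h : d i + d' k = n
  · rw [if_pos h, Finset.sum_eq_single (d i, d' k)]
    · simp
    · rintro ⟨a, b⟩ hab hne
      rw [if_neg]
      rintro ⟨h3, h4⟩
      exact hne (by simp only [h3, h4])
    · intro h3
      exact absurd (Finset.HasAntidiagonal.mem_antidiagonal.2 h) h3
  · rw [if_neg h]
    apply Finset.sum_eq_zero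
    rintro ⟨a, b⟩ hab
    rw [Finset.HasAntidiagonal.mem_antidiagonal] at hab
    simp only at hab ⊢
    rw [if_neg]
    rintro ⟨h3, h4⟩
    omega

theorem gen_one {ι : Type*} [Unique ι] {d : ι → ℕ} {w : ι → ℤ} (hd : d default = 0)
    (hw : w default = 1) : gen d w = 1 := by
  ext n
  rw [coeff_gen, finsum_unique, hd, hw, coeff_one]
  congr 1
  exact propext eq_comm

/-- Substituting a power of the variable. -/
theorem expand_gen {ι : Type*} {d : ι → ℕ} (w : ι → ℤ) (k : ℕ) (hk : k ≠ 0) :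
    expand k hk (gen d w) = gen (fun i => k * d i) w := by
  ext n
  rw [coeff_expand, coeff_gen, coeff_gen]
  split_ifs with h
  · obtain ⟨m, rfl⟩ := h
    rw [Nat.mul_div_cancel_left _ (Nat.pos_of_ne_zero hk)]
    congr 1
    funext i
    by_cases h1 : d i = m
    · simp [h1]
    · rw [if_neg h1, if_neg]
      intro h2
      exact h1 (Nat.eq_of_mul_eq_mul_left (Nat.pos_of_ne_zero hk) h2)
  · rw [finsum_eq_zero_of_forall_eq_zero]
    intro i
    rw [if_neg]
    intro h2
    exact h ⟨_, h2.symm⟩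

theorem coeff_evalNeg (F : PowerSeries ℤ) (n : ℕ) :
    coeff n (evalNegHom F) = (-1) ^ n * coeff n F := by
  rw [evalNegHom, coeff_rescale]

theorem evalNeg_gen {ι : Type*} {d : ι → ℕ} (w : ι → ℤ) :
    evalNegHom (gen d w) = gen d (fun i => (-1) ^ (d i) * w i) := by
  ext n
  rw [coeff_evalNeg, coeff_gen, coeff_gen, mul_finsum]
  congr 1
  funext i
  split_ifs with h
  · rw [h]
  · simp

/-- The Euler operator `X d/dX`. -/
noncomputable def D (F : PowerSeries ℤ) : PowerSeries ℤ := PowerSeries.mk fun n => n * coeff n F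

theorem coeff_D (F : PowerSeries ℤ) (n : ℕ) : coeff n (D F) = n * coeff n F := by
  simp [D]

theorem D_gen {ι : Type*} {d : ι → ℕ} (w : ι → ℤ) :
    D (gen d w) = gen d (fun i => (d i : ℤ) * w i) := by
  ext n
  rw [coeff_D, coeff_gen, coeff_gen, mul_finsum]
  congr 1
  funext i
  split_ifs with h
  · rw [h]
  · simp

theorem D_add (F G : PowerSeries ℤ) : D (F + G) = D F + D G := by
  ext n
  simp only [coeff_D, map_add]
  ring

theorem D_smul (c : ℤ) (F : PowerSeries ℤ) : D ((c : PowerSeries ℤ) * F) = (c : PowerSeries ℤ) * D F := by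
  ext n
  simp only [coeff_D, coeff_int_mul]
  ring

theorem D_mul (F G : PowerSeries ℤ) : D (F * G) = D F * G + F * D G := by
  ext n
  rw [coeff_D, map_add, coeff_mul, coeff_mul, coeff_mul, Finset.mul_sum, ← Finset.sum_add_distrib]
  refine Finset.sum_congr rfl ?_
  rintro ⟨a, b⟩ hab
  rw [Finset.HasAntidiagonal.mem_antidiagonal] at hab
  simp only [coeff_D] at hab ⊢
  rw [← hab]
  push_cast
  ring

theorem D_expand (F : PowerSeries ℤ) (k : ℕ) (hk : k ≠ 0) :
    D (expand k hk F) = ((k : ℤ) : PowerSeries ℤ) * expand k hk (D F) := by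
  ext n
  rw [coeff_D, coeff_int_mul, coeff_expand, coeff_expand]
  split_ifs with h
  · obtain ⟨m, rfl⟩ := h
    rw [Nat.mul_div_cancel_left _ (Nat.pos_of_ne_zero hk), coeff_D]
    push_cast
    ring
  · simp

theorem X_pow_mul_gen {ι : Type*} {d : ι → ℕ} (w : ι → ℤ) (a : ℕ) :
    X ^ a * gen d w = gen (fun i => d i + a) w := by
  ext n
  rw [coeff_X_pow_mul']
  rw [coeff_gen, coeff_gen]
  split_ifs with h
  · congr 1
    funext i
    have : (d i = n - a) ↔ (d i + a = n) := by omega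
    simp only [this]
  · rw [finsum_eq_zero_of_forall_eq_zero]
    intro i
    rw [if_neg]
    omega

theorem coeff_gen_one {ι : Type*} {d : ι → ℕ} (hd : Fib d) (n : ℕ) :
    coeff n (gen d (fun _ => 1)) = (Set.ncard {i | d i = n} : ℤ) := by
  rw [coeff_gen_sum _ n (hd n).toFinset (by intro i hi; simpa using hi),
    Set.ncard_eq_toFinset_card _ (hd n), Finset.sum_congr rfl (g := fun _ => (1 : ℤ))]
  · simp
  · intro i hi
    rw [if_pos (by simpa using hi)]

end Pool.Agent.H24
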