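import Pool.Agent.H24.Theta

/-!
Jacobi's identities for the cube of the eta product and for sums of four squares.
-/

namespace Pool.Agent.H24

open PowerSeries

theorem eq_zero_of_expand {A B F : PowerSeries ℤ} (hA : constantCoeff A ≠ 0)
    (hB : constantCoeff B ≠ 0) (h0 : constantCoeff F = 0) (h : A * F = B * E2 F) : F = 0 := by
  by_contra hne
  have hA' : A.order = 0 := by
    by_contra h1
    exact hA (order_ne_zero_iff_constCoeff_eq_zero.1 h1)
  have hB' : B.order = 0 := by
    by_contra h1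
    exact hB (order_ne_zero_iff_constCoeff_eq_zero.1 h1)
  have h1 := congrArg order h
  rw [order_mul, order_mul, hA', hB', zero_add, zero_add, order_expand] at h1
  have h2 : F.order ≠ 0 := order_ne_zero_iff_constCoeff_eq_zero.2 h0
  have h3 : F.order ≠ ⊤ := by
    rwa [Ne, order_eq_top]
  obtain ⟨k, hk⟩ := ENat.ne_top_iff_exists.1 h3
  rw [← hk] at h1 h2
  rw [two_nsmul] at h1
  norm_cast at h1 h2
  omega

theorem const_th : constantCoeff th = 1 := by
  rw [← coeff_zero_eq_constantCoeff_apply, th, coeff_gen_sum _ 0 {0}]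
  · simp [sqN]
  · intro i hi
    have := sqN_cast i
    rw [hi] at this
    simp only [Finset.mem_singleton]
    have h2 : i ^ 2 = 0 := by simpa using this.symm
    exact pow_eq_zero_iff (two_ne_zero) |>.1 h2

theorem const_thn : constantCoeff thn = 1 := by
  rw [← coeff_zero_eq_constantCoeff_apply, thn, coeff_gen_sum _ 0 {0}]
  · simp [sqN, sg]
  · intro i hi
    have := sqN_cast i
    rw [hi] at this
    simp only [Finset.mem_singleton]
    have h2 : i ^ 2 = 0 := by simpa using this.symm
    exact pow_eq_zero_iff (two_ne_zero) |>.1 h2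

theorem tri_eq_zero {i : ℤ} (hi : tri i = 0) : i = 0 ∨ i = -1 := by
  have := two_tri i
  rw [hi] at this
  have h2 : i * (i + 1) = 0 := by simpa using this.symm
  rcases mul_eq_zero.1 h2 with h | h
  · left; exact h
  · right; omega

theorem const_ps : constantCoeff ps = 2 := by
  rw [← coeff_zero_eq_constantCoeff_apply, ps, coeff_gen_sum _ 0 {0, -1}]
  · rw [Finset.sum_pair (by norm_num)]
    simp [tri]
  · intro i hi
    simpa using tri_eq_zero hi

theorem const_ph : constantCoeff ph = 2 := by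
  rw [← coeff_zero_eq_constantCoeff_apply, ph, coeff_gen_sum _ 0 {0, -1}]
  · rw [Finset.sum_pair (by norm_num)]
    simp [tri, sg]
  · intro i hi
    simpa using tri_eq_zero hi

theorem ne_zero_of_const {F : PowerSeries ℤ} (h : constantCoeff F ≠ 0) : F ≠ 0 := by
  rintro rfl
  simp at h

/-- Jacobi's formula for the cube of the eta product, in terms of theta series. -/
theorem ph_eq : ph = ps * thn ^ 2 := by
  have h1 := ph_mul_ps
  have h2 := ps_sq
  have h3 := th_mul_thn
  have key : ph - ps * thn ^ 2 = 0 := by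
    apply eq_zero_of_expand (A := ps) (B := 2 * thn)
    · rw [const_ps]; norm_num
    · rw [map_mul, const_thn, map_ofNat]; norm_num
    · simp [const_ps, const_ph, const_thn]
    · rw [map_sub, map_mul, map_pow]
      linear_combination h1 - thn ^ 2 * h2 - 2 * E2 ps * thn * h3
  linear_combination key

theorem const_evalNeg (F : PowerSeries ℤ) : constantCoeff (evalNegHom F) = constantCoeff F := by
  rw [← coeff_zero_eq_constantCoeff_apply, coeff_evalNeg]
  simp

theorem ps_thn : ps * thn = evalNegHom ps * E2 thn := by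
  have h1 : (ps * thn) ^ 2 = (evalNegHom ps * E2 thn) ^ 2 := by
    have h2 := ps_sq
    have h3 := th_mul_thn
    have h4 := congrArg evalNegHom h2
    rw [map_pow, map_mul, map_mul, evalNeg_th, evalNeg_E2, map_ofNat] at h4
    linear_combination thn ^ 2 * h2 - (E2 thn) ^ 2 * h4 + 2 * E2 ps * thn * h3
  rcases sq_eq_sq_iff_eq_or_eq_neg.1 h1 with h | h
  · exact h
  · exfalso
    have h2 := congrArg constantCoeff h
    rw [map_neg, map_mul, map_mul, const_ps, const_thn, const_evalNeg, const_ps,
      constantCoeff_expand, const_thn] at h2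
    norm_num at h2

/-- The pentagonal number series. -/
noncomputable def pe : PowerSeries ℤ := gen pentagonal sg

theorem Fib_pent : Fib pentagonal := by
  intro n
  apply Set.Subsingleton.finite
  intro a ha b hb
  simp only [Set.mem_ofPred_eq] at ha hb
  exact pentagonal_injective (ha.trans hb.symm)

theorem negOnePow_eq (k : ℤ) : ((Int.negOnePow k : ℤˣ) : ℤ) = sg k := by
  unfold sg
  split_ifs with h
  · rw [Int.negOnePow_even k (Int.even_iff.2 h)]
    simp
  · rw [Int.negOnePow_odd k (Int.odd_iff.2 (by omega))]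
    simp

theorem pe_eq : pe = pentagonalSeries ℤ := by
  ext n
  rw [pe, coeff_gen]
  by_cases h : n ∈ Set.range pentagonal
  · obtain ⟨k, rfl⟩ := h
    rw [coeff_pentagonalSeries_pentagonal, finsum_eq_single _ k]
    · rw [if_pos rfl, ← negOnePow_eq, Int.cast_id]
    · intro x hx
      rw [if_neg]
      intro h
      exact hx (pentagonal_injective h)
  · rw [coeff_pentagonalSeries_eq_zero ℤ h, finsum_eq_zero_of_forall_eq_zero]
    intro x
    rw [if_neg]
    intro h1
    exact h ⟨x, h1⟩

theorem const_pe : constantCoeff pe = 1 := by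
  rw [← coeff_zero_eq_constantCoeff_apply, pe, coeff_gen_sum _ 0 {0}]
  · simp [pentagonal, sg]
  · intro i hi
    have h0 : pentagonal 0 = 0 := by simp [pentagonal]
    rw [← h0] at hi
    simpa using pentagonal_injective hi

/-- A product of two pentagonal series as a theta series in two variables. -/
theorem pe_mul : 2 * (pe * E2 pe) = ps * thn := by
  have hF : Fib (fun p : ℤ × ℤ => tri p.1 + sqN p.2) := Fib_tri.prod Fib_sqN
  have h0 : ps * thn = gen (fun p : ℤ × ℤ => tri p.1 + sqN p.2) (fun p => sg p.2) := by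
    rw [ps, thn, gen_mul Fib_tri Fib_sqN]
    exact gen_congr (fun _ => rfl) (fun _ => one_mul _)
  have hP : pe * E2 pe = gen (fun p : ℤ × ℤ => pentagonal p.1 + 2 * pentagonal p.2)
      (fun p => sg p.1 * sg p.2) := by
    rw [pe, expand_gen, gen_mul Fib_pent (Fib_pent.smul 2 (by norm_num))]
  have h2 : gen (fun p : ℤ × ℤ => tri p.1 + sqN p.2)
      (fun p => if (p.1 + p.2) % 3 = 2 then sg p.2 else 0) = pe * E2 pe := by
    rw [hP]
    symm
    refine gen_inj (fun p : ℤ × ℤ => (p.1 + 2 * p.2 - 1, p.2 - p.1)) ?_ ?_ ?_ ?_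
    · rintro ⟨a, b⟩ ⟨c, d⟩ h
      simp only [Prod.mk.injEq] at h ⊢
      omega
    · rintro ⟨a, b⟩ hi
      refine ⟨((a + b + 1) / 3 - b, (a + b + 1) / 3), ?_⟩
      simp only [Prod.mk.injEq]
      by_contra h
      apply hi
      simp only
      rw [if_neg (by omega)]
    · rintro ⟨a, b⟩
      have h1 := two_tri (a + 2 * b - 1)
      have h2 := two_mul_natCast_pentagonal a
      have h3 := two_mul_natCast_pentagonal b
      zify
      simp only [sqN_cast]
      linarith
    · rintro ⟨a, b⟩
      simp only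
      rw [if_pos (by omega), sg_mul]
      apply sg_congr
      omega
  have h3 : gen (fun p : ℤ × ℤ => tri p.1 + sqN p.2)
      (fun p => if (p.1 + p.2) % 3 = 0 then sg p.2 else 0) = pe * E2 pe := by
    rw [hP]
    symm
    refine gen_inj (fun p : ℤ × ℤ => (-p.1 - 2 * p.2, p.1 - p.2)) ?_ ?_ ?_ ?_
    · rintro ⟨a, b⟩ ⟨c, d⟩ h
      simp only [Prod.mk.injEq] at h ⊢
      omega
    · rintro ⟨a, b⟩ hi
      refine ⟨((-(a + b)) / 3 + b, (-(a + b)) / 3), ?_⟩
      simp only [Prod.mk.injEq]
      by_contra h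
      apply hi
      simp only
      rw [if_neg (by omega)]
    · rintro ⟨a, b⟩
      have h1 := two_tri (-a - 2 * b)
      have h2 := two_mul_natCast_pentagonal a
      have h3 := two_mul_natCast_pentagonal b
      zify
      simp only [sqN_cast]
      linarith
    · rintro ⟨a, b⟩
      simp only
      rw [if_pos (by omega), sg_mul]
      apply sg_congr
      omega
  have h4 : gen (fun p : ℤ × ℤ => tri p.1 + sqN p.2)
      (fun p => if (p.1 + p.2) % 3 = 1 then sg p.2 else 0) = 0 := by
    have h5 : gen (fun p : ℤ × ℤ => tri (3 * p.1 + 1 - p.2) + sqN p.2) (fun p => sg p.2)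
        = gen (fun p : ℤ × ℤ => tri p.1 + sqN p.2)
          (fun p => if (p.1 + p.2) % 3 = 1 then sg p.2 else 0) := by
      refine gen_inj (fun p : ℤ × ℤ => (3 * p.1 + 1 - p.2, p.2)) ?_ ?_ ?_ ?_
      · rintro ⟨a, b⟩ ⟨c, d⟩ h
        simp only [Prod.mk.injEq] at h ⊢
        omega
      · rintro ⟨a, b⟩ hi
        refine ⟨((a + b - 1) / 3, b), ?_⟩
        simp only [Prod.mk.injEq, and_true]
        by_contra h
        apply hi
        simp only
        rw [if_neg (by omega)]
      · rintro ⟨a, b⟩
        rfl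
      · rintro ⟨a, b⟩
        simp only
        rw [if_pos (by omega)]
    rw [← h5]
    let e : ℤ × ℤ ≃ ℤ × ℤ :=
      { toFun := fun p => (-p.1 - 1, p.2 - 2 * p.1 - 1)
        invFun := fun p => (-p.1 - 1, p.2 - 2 * p.1 - 1)
        left_inv := by
          rintro ⟨a, b⟩
          simp only [Prod.mk.injEq]
          omega
        right_inv := by
          rintro ⟨a, b⟩
          simp only [Prod.mk.injEq]
          omega }
    refine gen_anti e ?_ ?_
    · rintro ⟨a, b⟩
      change tri (3 * (-a - 1) + 1 - (b - 2 * a - 1)) + sqN (b - 2 * a - 1)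
        = tri (3 * a + 1 - b) + sqN b
      have h1 := two_tri (3 * (-a - 1) + 1 - (b - 2 * a - 1))
      have h2 := two_tri (3 * a + 1 - b)
      zify
      simp only [sqN_cast]
      linarith
    · rintro ⟨a, b⟩
      change sg (b - 2 * a - 1) = - sg b
      apply sg_congr_neg
      omega
  rw [h0, gen_split hF (fun p => (p.1 + p.2) % 3 = 2)]
  have h6 : gen (fun p : ℤ × ℤ => tri p.1 + sqN p.2)
      (fun p => if (p.1 + p.2) % 3 = 2 then 0 else sg p.2) =
      gen (fun p : ℤ × ℤ => tri p.1 + sqN p.2)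
      (fun p => if (p.1 + p.2) % 3 = 0 then sg p.2 else 0) + gen (fun p : ℤ × ℤ => tri p.1 + sqN p.2)
      (fun p => if (p.1 + p.2) % 3 = 1 then sg p.2 else 0) := by
    rw [← gen_add hF]
    refine gen_congr (fun _ => rfl) ?_
    rintro ⟨a, b⟩
    simp only
    split_ifs <;> omega
  rw [h6, h2, h3, h4]
  ring

theorem pe_ne : pe ≠ 0 := ne_zero_of_const (by rw [const_pe]; norm_num)

theorem ps_ne : ps ≠ 0 := ne_zero_of_const (by rw [const_ps]; norm_num)

theorem th_ne : th ≠ 0 := ne_zero_of_const (by rw [const_th]; norm_num)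

theorem E2_ne {F : PowerSeries ℤ} (h : constantCoeff F ≠ 0) : E2 F ≠ 0 :=
  ne_zero_of_const (by rwa [constantCoeff_expand])

theorem E4_ne {F : PowerSeries ℤ} (h : constantCoeff F ≠ 0) : E4 F ≠ 0 :=
  ne_zero_of_const (by rwa [constantCoeff_expand])

theorem K1 : thn * E2 pe = pe ^ 2 := by
  have hH := pe_mul
  have hH2 := congrArg E2 pe_mul
  simp only [map_mul, map_ofNat, E2_E2] at hH2
  have h1 : thn * E2 pe * (E2 thn * E4 pe) = pe ^ 2 * (E2 pe) ^ 2 := by
    have h4 : (4 : PowerSeries ℤ) ≠ 0 := ne_zero_of_const (by rw [map_ofNat]; norm_num)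
    apply mul_left_cancel₀ h4
    have h2 := ps_sq
    have h3 := th_mul_thn
    linear_combination 2 * thn * E2 thn * hH2 - (2 * (pe * E2 pe) + ps * thn) * hH
      - thn ^ 2 * h2 - 2 * E2 ps * thn * h3
  have key : thn * E2 pe - pe ^ 2 = 0 := by
    apply eq_zero_of_expand (A := (E2 pe) ^ 2) (B := - (thn * E2 pe))
    · rw [map_pow, constantCoeff_expand, const_pe]; norm_num
    · rw [map_neg, map_mul, constantCoeff_expand, const_pe, const_thn]; norm_num
    · rw [map_sub, map_mul, map_pow, constantCoeff_expand, const_pe, const_thn]; norm_num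
    · rw [map_sub, map_mul, map_pow, E2_E2]
      linear_combination h1
  linear_combination key

theorem K2 : ps * pe = 2 * (E2 pe) ^ 2 := by
  apply mul_left_cancel₀ pe_ne
  linear_combination (-ps) * K1 - E2 pe * pe_mul

theorem K3 : th * (pe ^ 2 * (E4 pe) ^ 2) = (E2 pe) ^ 5 := by
  have h1 := K1
  have h2 := congrArg E2 K1
  simp only [map_mul, map_pow, E2_E2] at h2
  have h3 := th_mul_thn
  linear_combination (-(th * (E4 pe) ^ 2)) * h1 + E2 pe * (E4 pe) ^ 2 * h3
    + E2 pe * (E2 thn * E4 pe + (E2 pe) ^ 2) * h2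

/-- The generating series of the sum of divisors. -/
noncomputable def sig : PowerSeries ℤ := PowerSeries.mk fun n => (ArithmeticFunction.sigma 1 n : ℤ)

/-- The series of the multiples of `k`, each weighted by `k`. -/
noncomputable def gk (k : ℕ) : PowerSeries ℤ :=
  PowerSeries.mk fun n => if k ∣ n ∧ n ≠ 0 then (k : ℤ) else 0

theorem gk_mul (k : ℕ) (hk : k ≠ 0) : (1 - X ^ k) * gk k = ((k : ℤ) : PowerSeries ℤ) * X ^ k := by
  ext n
  rw [sub_mul, one_mul, map_sub, coeff_X_pow_mul', coeff_int_mul, coeff_X_pow, gk, coeff_mk,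
    coeff_mk]
  by_cases h1 : k ≤ n
  · rw [if_pos h1]
    by_cases h2 : k ∣ n
    · by_cases h3 : n = k
      · subst h3
        simp [hk]
      · have h4 : k ∣ n - k := Nat.dvd_sub h2 (dvd_refl k)
        rw [if_pos ⟨h2, by omega⟩, if_pos ⟨h4, by omega⟩, if_neg h3]
        simp
    · have h4 : ¬ (k ∣ n - k) := by
        intro h5
        apply h2
        have h6 := Nat.dvd_add h5 (dvd_refl k)
        rwa [Nat.sub_add_cancel h1] at h6
      rw [if_neg (by tauto), if_neg (by tauto), if_neg]
      · simp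
      · rintro rfl
        exact h2 (dvd_refl _)
  · rw [if_neg h1, if_neg, if_neg (by omega)]
    · simp
    · rintro ⟨h2, h3⟩
      exact h1 (Nat.le_of_dvd (Nat.pos_of_ne_zero h3) h2)

theorem D_one_sub (k : ℕ) : D (1 - X ^ k) = - (((k : ℤ) : PowerSeries ℤ) * X ^ k) := by
  ext n
  rw [coeff_D, map_sub, map_neg, coeff_int_mul, coeff_X_pow, coeff_one]
  split_ifs with h1 h2 h2
  · rw [← h2, h1]; simp
  · rw [h1]; simp
  · rw [h2]; simp
  · simp

theorem D_prod (S : Finset ℕ) : D (∏ i ∈ S, (1 - X ^ (i + 1)))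
    = - (∏ i ∈ S, (1 - X ^ (i + 1))) * ∑ i ∈ S, gk (i + 1) := by
  classical
  induction S using Finset.induction_on with
  | empty =>
    ext n
    simp [coeff_D, coeff_one]
  | insert a S ha ih =>
    rw [Finset.prod_insert ha, Finset.sum_insert ha, D_mul, ih, D_one_sub]
    have h := gk_mul (a + 1) (by omega)
    linear_combination (-(∏ i ∈ S, (1 - X ^ (i + 1)))) * (-h)

theorem sum_gk (M m : ℕ) (h : m ≤ M) :
    coeff m (∑ i ∈ Finset.range M, gk (i + 1)) = coeff m sig := by
  rw [map_sum, sig, coeff_mk]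
  simp only [gk, coeff_mk]
  rw [ArithmeticFunction.sigma_one_apply]
  by_cases hm : m = 0
  · subst hm
    simp
  · rw [← Finset.sum_filter]
    push_cast
    refine Finset.sum_nbij' (fun i => i + 1) (fun d => d - 1) ?_ ?_ ?_ ?_ ?_
    · intro i hi
      simp only [Finset.mem_filter, Finset.mem_range] at hi
      rw [Nat.mem_divisors]
      exact hi.2
    · intro d hd
      rw [Nat.mem_divisors] at hd
      have h1 := Nat.le_of_dvd (Nat.pos_of_ne_zero hm) hd.1
      have h2 : 0 < d := Nat.pos_of_dvd_of_pos hd.1 (Nat.pos_of_ne_zero hm)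
      simp only [Finset.mem_filter, Finset.mem_range]
      refine ⟨by omega, ?_⟩
      rw [Nat.sub_add_cancel h2]
      exact hd
    · intro i _
      simp
    · intro d hd
      rw [Nat.mem_divisors] at hd
      have h2 : 0 < d := Nat.pos_of_dvd_of_pos hd.1 (Nat.pos_of_ne_zero hm)
      omega
    · intro i _
      push_cast
      ring

theorem D_pe : D pe = - pe * sig := by
  ext n
  rw [pe_eq]
  have h1 : ∀ᶠ s in Filter.atTop, ∀ m ∈ Finset.range (n + 1),
      (∏ n ∈ s, (1 - X ^ (n + 1) : PowerSeries ℤ)).coeff m = (pentagonalSeries ℤ).coeff m := by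
    rw [Filter.eventually_all_finset]
    intro m _
    exact coeff_prod_one_sub_X_pow_eventually_eq ℤ m
  have h2 := Filter.tendsto_finset_range.eventually h1
  obtain ⟨M, hM⟩ := (h2.and (Filter.eventually_ge_atTop n)).exists
  obtain ⟨h3, h4⟩ := hM
  have h5 := congrArg (coeff n) (D_prod (Finset.range M))
  rw [coeff_D, h3 n (by simp), coeff_mul] at h5
  rw [coeff_D, h5, coeff_mul]
  refine Finset.sum_congr rfl ?_
  rintro ⟨a, b⟩ hab
  rw [Finset.HasAntidiagonal.mem_antidiagonal] at hab
  simp only at hab ⊢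
  rw [map_neg, map_neg, h3 a (by simp; omega), sum_gk M b (by omega)]

theorem D_E2 (F : PowerSeries ℤ) : D (E2 F) = 2 * E2 (D F) := by
  have := D_expand F 2 (by norm_num)
  simpa using this

theorem D_E4 (F : PowerSeries ℤ) : D (E4 F) = 4 * E4 (D F) := by
  have := D_expand F 4 (by norm_num)
  simpa using this

theorem D_sq (F : PowerSeries ℤ) : D (F ^ 2) = 2 * F * D F := by
  rw [pow_two, D_mul]
  ring

theorem D_th : D th = th * (2 * sig - 10 * E2 sig + 8 * E4 sig) := by
  have h1 := congrArg D K3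
  have h5 : (E2 pe) ^ 5 = E2 pe * ((E2 pe) ^ 2) ^ 2 := by ring
  rw [h5, D_mul, D_mul, D_mul, D_sq, D_sq, D_sq, D_sq, D_pe, D_E2, D_E4, D_pe] at h1
  simp only [map_mul, map_neg] at h1
  have h2 : pe ^ 2 * (E4 pe) ^ 2 ≠ 0 := by
    apply mul_ne_zero
    · exact pow_ne_zero _ pe_ne
    · exact pow_ne_zero _ (E4_ne (by rw [const_pe]; norm_num))
  apply mul_left_cancel₀ h2
  linear_combination h1 + (-10 * E2 sig) * (-K3)

theorem D_ps : D ps = ps * (sig - 4 * E2 sig) := by
  have h1 := congrArg D K2
  have h2 : (2 * (E2 pe) ^ 2) = (E2 pe) ^ 2 + (E2 pe) ^ 2 := by ring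
  rw [h2, D_mul, D_add, D_sq, D_pe, D_E2, D_pe] at h1
  simp only [map_mul, map_neg] at h1
  apply mul_left_cancel₀ pe_ne
  linear_combination h1 - (-4 * E2 sig) * K2

/-- Jacobi's four squares theorem as a power series identity. -/
theorem thn_four : thn ^ 4 = 1 - 8 * sig + 48 * E2 sig - 64 * E4 sig := by
  have h1 := ph_sq
  rw [ph_eq, D_E2, D_th, D_ps] at h1
  simp only [map_mul, map_sub, map_ofNat, E2_E2] at h1
  have h2 : 2 * (th * E2 ps) ≠ 0 := by
    apply mul_ne_zero (ne_zero_of_const (by rw [map_ofNat]; norm_num))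
    exact mul_ne_zero th_ne (E2_ne (by rw [const_ps]; norm_num))
  apply mul_left_cancel₀ h2
  linear_combination h1 - thn ^ 4 * ps_sq

end Pool.Agent.H24
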