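import Pool.Agent.H24.Count

/-!
The explicit terms for primes congruent to 1 modulo 16.
-/

namespace Pool.Agent.H24

/-- A prime congruent to 1 modulo 8 is of the form `x^2 + 2y^2`. -/
theorem exists_two (p : ℕ) (hp : p.Prime) (h8 : p % 8 = 1) :
    ∃ x y : ℤ, (p : ℤ) = x ^ 2 + 2 * y ^ 2 := by
  have : Fact p.Prime := ⟨hp⟩
  have hp2 : p ≠ 2 := by omega
  obtain ⟨r, hr⟩ := (ZMod.exists_sq_eq_neg_two_iff hp2).2 (Or.inl h8)
  set k := Nat.sqrt p with hk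
  have hk1 : p < (k + 1) * (k + 1) := Nat.lt_succ_sqrt p
  have hk2 : k * k ≤ p := Nat.sqrt_le p
  have hcard : Fintype.card (ZMod p) < Fintype.card (Fin (k + 1) × Fin (k + 1)) := by
    simp only [Fintype.card_prod, Fintype.card_fin, ZMod.card]
    exact hk1
  obtain ⟨u, v, huv, hf⟩ := Fintype.exists_ne_map_eq_of_card_lt
    (fun z : Fin (k + 1) × Fin (k + 1) => ((z.1 : ℕ) : ZMod p) - r * ((z.2 : ℕ) : ZMod p)) hcard
  set a : ℤ := ((u.1 : ℕ) : ℤ) - ((v.1 : ℕ) : ℤ) with ha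
  set b : ℤ := ((u.2 : ℕ) : ℤ) - ((v.2 : ℕ) : ℤ) with hb
  have hab : (a : ZMod p) = r * (b : ZMod p) := by
    rw [ha, hb]
    push_cast
    linear_combination hf
  have h1 : ((a ^ 2 + 2 * b ^ 2 : ℤ) : ZMod p) = 0 := by
    push_cast
    rw [hab]
    linear_combination (-(b : ZMod p) ^ 2) * hr
  rw [ZMod.intCast_zmod_eq_zero_iff_dvd] at h1
  obtain ⟨c, hc⟩ := h1
  have hu1 := u.1.isLt
  have hu2 := u.2.isLt
  have hv1 := v.1.isLt
  have hv2 := v.2.isLt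
  have hak : -(k : ℤ) ≤ a ∧ a ≤ k := by constructor <;> omega
  have hbk : -(k : ℤ) ≤ b ∧ b ≤ k := by constructor <;> omega
  have ha2 : a ^ 2 ≤ (k : ℤ) * k := by
    rw [← pow_two]
    exact sq_le_sq' hak.1 hak.2
  have hb2 : b ^ 2 ≤ (k : ℤ) * k := by
    rw [← pow_two]
    exact sq_le_sq' hbk.1 hbk.2
  have hkk : (k : ℤ) * k ≤ p := by exact_mod_cast hk2
  have hkp : (k : ℤ) * k ≠ p := by
    intro h
    have h' : k * k = p := by exact_mod_cast h
    rcases (Nat.Prime.eq_one_or_self_of_dvd hp k ⟨k, h'.symm⟩) with h2 | h2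
    · rw [h2] at h'
      have := hp.one_lt
      omega
    · rw [h2] at h'
      have := hp.one_lt
      nlinarith
  have hne : a ≠ 0 ∨ b ≠ 0 := by
    by_contra h
    push Not at h
    apply huv
    have e1 : (u.1 : ℕ) = v.1 := by omega
    have e2 : (u.2 : ℕ) = v.2 := by omega
    exact Prod.ext (Fin.ext e1) (Fin.ext e2)
  clear_value a b k
  have hpos : 0 < a ^ 2 + 2 * b ^ 2 := by
    rcases hne with h | h
    · have : 0 < a ^ 2 := by positivity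
      have : 0 ≤ b ^ 2 := by positivity
      linarith
    · have : 0 < b ^ 2 := by positivity
      have : 0 ≤ a ^ 2 := by positivity
      linarith
  have hp0 : (0 : ℤ) < p := by exact_mod_cast hp.pos
  have hc0 : 0 < c := by
    by_contra h
    have := mul_nonpos_of_nonneg_of_nonpos hp0.le (not_lt.1 h)
    linarith
  have hc3 : c < 3 := by
    by_contra h
    have h4 : a ^ 2 + 2 * b ^ 2 < 3 * p := by
      have : (k : ℤ) * k < p := lt_of_le_of_ne hkk hkp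
      linarith
    have := mul_le_mul_of_nonneg_left (not_lt.1 h) hp0.le
    linarith
  have hc' : c = 1 ∨ c = 2 := by omega
  rcases hc' with rfl | rfl
  · exact ⟨a, b, by linarith⟩
  · have hae : Even (a ^ 2) := ⟨p - b ^ 2, by linarith⟩
    have hae2 : Even a := by
      rcases Int.even_or_odd a with h | h
      · exact h
      · exfalso
        have := h.pow (n := 2)
        rw [← Int.not_even_iff_odd] at this
        exact this hae
    obtain ⟨t, ht⟩ := hae2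
    refine ⟨b, t, ?_⟩
    rw [ht] at hc
    linarith

theorem sq_mod (x : ℤ) : x ^ 2 % 8 = 0 ∨ x ^ 2 % 8 = 1 ∨ x ^ 2 % 8 = 4 := by
  have h : x % 8 = 0 ∨ x % 8 = 1 ∨ x % 8 = 2 ∨ x % 8 = 3 ∨ x % 8 = 4 ∨ x % 8 = 5 ∨ x % 8 = 6
      ∨ x % 8 = 7 := by omega
  rcases h with h | h | h | h | h | h | h | h <;> simp [pow_two, Int.mul_emod, h]

theorem sq_odd_mod (x : ℤ) (h : x % 2 = 1) : x ^ 2 % 8 = 1 := by
  obtain ⟨j, rfl⟩ : ∃ j, x = 2 * j + 1 := ⟨x / 2, by omega⟩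
  rw [sq_odd_eq]
  omega

theorem exists_eight (p : ℕ) (hp : p.Prime) (h8 : p % 8 = 1) :
    ∃ x y : ℤ, 0 < x ∧ 0 < y ∧ (p : ℤ) = x ^ 2 + 8 * y ^ 2 := by
  obtain ⟨x, y, h⟩ := exists_two p hp h8
  have hx := sq_mod x
  have hy := sq_mod y
  have hyE : y % 2 = 0 := by
    by_contra h1
    have := sq_odd_mod y (by omega)
    omega
  obtain ⟨t, ht⟩ : ∃ t, y = 2 * t := ⟨y / 2, by omega⟩
  have h2 : (p : ℤ) = x ^ 2 + 8 * t ^ 2 := by
    rw [h, ht]
    ring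
  have hx0 : x ≠ 0 := by
    intro h0
    have : (p : ℤ) = 8 * t ^ 2 := by
      rw [h2, h0]
      ring
    omega
  have ht0 : t ≠ 0 := by
    rintro rfl
    have h3 : (p : ℤ) = x ^ 2 := by linarith
    have h4 : p = x.natAbs * x.natAbs := by
      zify
      rw [← pow_two, sq_abs]
      exact h3
    rcases (Nat.Prime.eq_one_or_self_of_dvd hp x.natAbs ⟨x.natAbs, h4⟩) with h5 | h5
    · rw [h5] at h4
      have := hp.one_lt
      omega
    · rw [h5] at h4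
      have := hp.one_lt
      nlinarith
  refine ⟨|x|, |t|, abs_pos.2 hx0, abs_pos.2 ht0, ?_⟩
  rw [sq_abs, sq_abs]
  exact h2

theorem exists_sixteen (p : ℕ) (hp : p.Prime) (h8 : p % 8 = 1) :
    ∃ x y : ℤ, 0 < x ∧ 0 < y ∧ (p : ℤ) = x ^ 2 + 16 * y ^ 2 := by
  have : Fact p.Prime := ⟨hp⟩
  obtain ⟨a, b, hab⟩ := Nat.Prime.sq_add_sq (p := p) (by omega)
  have key : ∀ a b : ℤ, a ^ 2 + b ^ 2 = (p : ℤ) → b % 2 = 0 →
      ∃ x y : ℤ, 0 < x ∧ 0 < y ∧ (p : ℤ) = x ^ 2 + 16 * y ^ 2 := by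
    intro a b h hb
    obtain ⟨t, rfl⟩ : ∃ t, b = 2 * t := ⟨b / 2, by omega⟩
    have ha := sq_mod a
    have ht := sq_mod t
    have h1 : a ^ 2 + 4 * t ^ 2 = (p : ℤ) := by linarith
    have htE : t % 2 = 0 := by
      by_contra h2
      have := sq_odd_mod t (by omega)
      omega
    obtain ⟨s, rfl⟩ : ∃ s, t = 2 * s := ⟨t / 2, by omega⟩
    have h2 : (p : ℤ) = a ^ 2 + 16 * s ^ 2 := by linarith
    have ha0 : a ≠ 0 := by
      intro h0
      have : (p : ℤ) = 16 * s ^ 2 := by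
        rw [h2, h0]
        ring
      omega
    have hs0 : s ≠ 0 := by
      rintro rfl
      have h3 : (p : ℤ) = a ^ 2 := by linarith
      have h4 : p = a.natAbs * a.natAbs := by
        zify
        rw [← pow_two, sq_abs]
        exact h3
      rcases (Nat.Prime.eq_one_or_self_of_dvd hp a.natAbs ⟨a.natAbs, h4⟩) with h5 | h5
      · rw [h5] at h4
        have := hp.one_lt
        omega
      · rw [h5] at h4
        have := hp.one_lt
        nlinarith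
    refine ⟨|a|, |s|, abs_pos.2 ha0, abs_pos.2 hs0, ?_⟩
    rw [sq_abs, sq_abs]
    exact h2
  have hab' : (a : ℤ) ^ 2 + (b : ℤ) ^ 2 = p := by exact_mod_cast hab
  by_cases hb : (b : ℤ) % 2 = 0
  · exact key a b hab' hb
  · have ha : (a : ℤ) % 2 = 0 := by
      by_contra h2
      have h3 := sq_odd_mod (a : ℤ) (by omega)
      have h4 := sq_odd_mod (b : ℤ) (by omega)
      omega
    exact key b a (by linarith) ha

/-- Uniqueness of the representation of a prime by `x^2 + d y^2` for `d > 1`. -/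
theorem unique_rep (p : ℕ) (hp : p.Prime) (d : ℤ) (hd : 1 < d) (x y u v : ℤ)
    (h1 : (p : ℤ) = x ^ 2 + d * y ^ 2) (h2 : (p : ℤ) = u ^ 2 + d * v ^ 2) :
    x ^ 2 = u ^ 2 ∧ y ^ 2 = v ^ 2 := by
  have hpZ : Prime (p : ℤ) := Nat.prime_iff_prime_int.1 hp
  have hp0 : (0 : ℤ) < p := by exact_mod_cast hp.pos
  have key : ∀ u : ℤ, (p : ℤ) = u ^ 2 + d * v ^ 2 → (p : ℤ) ∣ x * v - u * y →
      x ^ 2 = u ^ 2 ∧ y ^ 2 = v ^ 2 := by
    intro u h2 h3
    have h4 : (p : ℤ) ^ 2 = (x * u + d * y * v) ^ 2 + d * (x * v - u * y) ^ 2 := by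
      have : (p : ℤ) ^ 2 = (x ^ 2 + d * y ^ 2) * (u ^ 2 + d * v ^ 2) := by
        rw [← h1, ← h2]
        ring
      rw [this]
      ring
    obtain ⟨c, hc⟩ := h3
    have hc0 : c = 0 := by
      by_contra hne
      have h5 : 1 ≤ c ^ 2 := by
        have := pow_pos (abs_pos.2 hne) 2
        rw [sq_abs] at this
        linarith
      rw [hc] at h4
      have h6 : (p : ℤ) ^ 2 ≥ d * (p : ℤ) ^ 2 := by nlinarith [sq_nonneg (x * u + d * y * v), mul_pos hp0 hp0]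
      nlinarith [mul_pos hp0 hp0]
    rw [hc0, mul_zero] at hc
    have h5 : x * v = u * y := by linarith
    have h6 : x ^ 2 * v ^ 2 = u ^ 2 * y ^ 2 := by
      calc x ^ 2 * v ^ 2 = (x * v) ^ 2 := by ring
        _ = (u * y) ^ 2 := by rw [h5]
        _ = u ^ 2 * y ^ 2 := by ring
    have h7 : (p : ℤ) * v ^ 2 = p * y ^ 2 := by
      have e1 : x ^ 2 = p - d * y ^ 2 := by linarith
      have e2 : u ^ 2 = p - d * v ^ 2 := by linarith
      rw [e1, e2] at h6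
      linarith
    have h8 : v ^ 2 = y ^ 2 := mul_left_cancel₀ hp0.ne' h7
    constructor
    · have : x ^ 2 - u ^ 2 = d * (v ^ 2 - y ^ 2) := by linarith
      rw [h8] at this
      linarith
    · exact h8.symm
  have h3 : (p : ℤ) ∣ (x * v - u * y) * (x * v - (-u) * y) := by
    refine ⟨v ^ 2 - y ^ 2, ?_⟩
    have e1 : x ^ 2 = p - d * y ^ 2 := by linarith
    have e2 : u ^ 2 = p - d * v ^ 2 := by linarith
    calc (x * v - u * y) * (x * v - (-u) * y) = x ^ 2 * v ^ 2 - u ^ 2 * y ^ 2 := by ring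
      _ = _ := by
        rw [e1, e2]
        ring
  rcases hpZ.dvd_or_dvd h3 with h4 | h4
  · exact key u h2 h4
  · have := key (-u) (by rw [neg_sq]; exact h2) h4
    rw [neg_sq] at this
    exact this

/-- Evaluation of the sum `cm` at a prime. -/
theorem cm_prime (p : ℕ) (hp : p.Prime) (d : ℕ) (hd : 1 < d) (x y : ℕ) (hx : 0 < x) (hy : 0 < y)
    (h : (p : ℤ) = (x : ℤ) ^ 2 + d * (y : ℤ) ^ 2) : cm d p = 2 * (ZMod.χ₄ x * x) := by
  unfold cm
  rw [← Finset.sum_product', ← Finset.sum_filter]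
  have hp0 : (0 : ℤ) < p := by exact_mod_cast hp.pos
  have hx' : (0 : ℤ) < x := by exact_mod_cast hx
  have hy' : (0 : ℤ) < y := by exact_mod_cast hy
  have hd' : (1 : ℤ) < d := by exact_mod_cast hd
  have hset : ((Finset.range (p + 1) ×ˢ Finset.Icc (-(p : ℤ)) p).filter
      (fun a => (a.1 : ℤ) ^ 2 + d * a.2 ^ 2 = p)) = {(x, (y : ℤ)), (x, -(y : ℤ))} := by
    ext ⟨a, b⟩
    simp only [Finset.mem_filter, Finset.mem_product, Finset.mem_range, Finset.mem_Icc,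
      Finset.mem_insert, Finset.mem_singleton, Prod.mk.injEq]
    constructor
    · rintro ⟨_, h1⟩
      obtain ⟨h2, h3⟩ := unique_rep p hp d hd' a b x y h1.symm h
      have h4 : a = x := by
        have : (a : ℤ) = x := by
          rcases sq_eq_sq_iff_eq_or_eq_neg.1 h2 with h5 | h5
          · exact h5
          · omega
        exact_mod_cast this
      rcases sq_eq_sq_iff_eq_or_eq_neg.1 h3 with h5 | h5
      · left; exact ⟨h4, h5⟩
      · right; exact ⟨h4, h5⟩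
    · have hxp : (x : ℤ) ≤ p := by nlinarith
      have hyp : (y : ℤ) ≤ p := by nlinarith
      rintro (⟨rfl, rfl⟩ | ⟨rfl, rfl⟩)
      · refine ⟨⟨by omega, by omega, by omega⟩, h.symm⟩
      · refine ⟨⟨by omega, by omega, by omega⟩, ?_⟩
        rw [neg_sq]
        exact h.symm
  rw [hset, Finset.sum_pair]
  · ring
  · simp only [ne_eq, Prod.mk.injEq, true_and]
    omega

/-- Evaluation of the count `r2odd` at a prime. -/
theorem r2odd_prime (p : ℕ) (hp : p.Prime) (x y : ℤ) (hx : 0 < x) (hy : 0 < y)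
    (h : (p : ℤ) = x ^ 2 + 16 * y ^ 2) : r2odd 16 p = if y % 2 = 1 then 4 else 0 := by
  unfold r2odd
  split_ifs with h1
  · have hset : {q : ℤ × ℤ | q.1 ^ 2 + ((16 : ℕ) : ℤ) * q.2 ^ 2 = (p : ℤ) ∧ Odd q.2}
        = (({(x, y), (x, -y), (-x, y), (-x, -y)} : Finset (ℤ × ℤ)) : Set (ℤ × ℤ)) := by
      ext ⟨a, b⟩
      simp only [Set.mem_ofPred_eq, Finset.coe_insert, Finset.coe_singleton, Set.mem_insert_iff,
        Set.mem_singleton_iff, Prod.mk.injEq]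
      constructor
      · rintro ⟨h2, _⟩
        obtain ⟨h3, h4⟩ := unique_rep p hp 16 (by norm_num) a b x y (by rw [← h2]; norm_num) h
        rcases sq_eq_sq_iff_eq_or_eq_neg.1 h3 with h5 | h5 <;>
        rcases sq_eq_sq_iff_eq_or_eq_neg.1 h4 with h6 | h6 <;> tauto
      · push_cast
        rintro (⟨rfl, rfl⟩ | ⟨rfl, rfl⟩ | ⟨rfl, rfl⟩ | ⟨rfl, rfl⟩)
        · exact ⟨h.symm, Int.odd_iff.2 h1⟩
        · exact ⟨by rw [neg_sq]; exact h.symm, Int.odd_iff.2 (by omega)⟩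
        · exact ⟨by rw [neg_sq]; exact h.symm, Int.odd_iff.2 h1⟩
        · exact ⟨by rw [neg_sq, neg_sq]; exact h.symm, Int.odd_iff.2 (by omega)⟩
    rw [hset, Set.ncard_coe_finset]
    rw [Finset.card_insert_of_notMem, Finset.card_insert_of_notMem, Finset.card_insert_of_notMem,
      Finset.card_singleton]
    · simp only [Finset.mem_singleton, Prod.mk.injEq]
      omega
    · simp only [Finset.mem_insert, Finset.mem_singleton, Prod.mk.injEq]
      omega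
    · simp only [Finset.mem_insert, Finset.mem_singleton, Prod.mk.injEq]
      omega
  · have hset : {q : ℤ × ℤ | q.1 ^ 2 + ((16 : ℕ) : ℤ) * q.2 ^ 2 = (p : ℤ) ∧ Odd q.2} = ∅ := by
      ext ⟨a, b⟩
      simp only [Set.mem_ofPred_eq, Set.mem_empty_iff_false, iff_false]
      rintro ⟨h2, h3⟩
      obtain ⟨_, h4⟩ := unique_rep p hp 16 (by norm_num) a b x y (by rw [← h2]; norm_num) h
      rw [Int.odd_iff] at h3
      rcases sq_eq_sq_iff_eq_or_eq_neg.1 h4 with h6 | h6 <;> omega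
    rw [hset, Set.ncard_empty]

theorem chi_val (x : ℕ) (hx : x % 2 = 1) : ∃ A : ℤ, ZMod.χ₄ x * x = A ∧ A % 4 = 1 ∧ A ^ 2 = x ^ 2 := by
  refine ⟨_, rfl, ?_, ?_⟩
  · rw [ZMod.χ₄_nat_eq_if_mod_four, if_neg (by omega)]
    split_ifs <;> omega
  · rw [ZMod.χ₄_nat_eq_if_mod_four, if_neg (by omega)]
    split_ifs <;> ring

theorem odd_sq_form (x : ℤ) (h : x % 2 = 1) : ∃ t, x ^ 2 = 8 * t + 1 := by
  have := sq_odd_mod x h
  exact ⟨x ^ 2 / 8, by omega⟩

theorem even_sum (x : ℤ) : ∃ t, x ^ 2 = 2 * t - x := by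
  obtain ⟨t, ht⟩ := Int.even_mul_succ_self x
  exact ⟨t, by linarith⟩

theorem case_odd (P A1 b B1 k : ℤ) (hb : b % 2 = 1)
    (hP1 : P = (1 + 8 * A1) ^ 2 + 16 * b ^ 2) (hP2 : P = (1 + 4 * B1) ^ 2 + 8 * k ^ 2)
    (hP : P % 16 = 1)
    (h64 : (64 : ℤ) ∣ P + 1 + 3 * (2 * (1 + 8 * A1)) - 4 * (2 * (1 + 4 * B1)) - 12 * 4) :
    ∃ z, P + 1 + 3 * (2 * (1 + 8 * A1)) - 4 * (2 * (1 + 4 * B1)) - 12 * 4
      = 64 * (if P % 32 = 1 then 1 else 0) + 128 * z := by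
  obtain ⟨tb, htb⟩ := odd_sq_form b hb
  obtain ⟨tA, htA⟩ := even_sum A1
  have e1 : P + 1 + 3 * (2 * (1 + 8 * A1)) - 4 * (2 * (1 + 4 * B1)) - 12 * 4
      = 128 * (tA + tb) - 32 * (1 + B1) := by
    rw [hP1]
    linear_combination 64 * htA + 16 * htb
  rw [e1] at h64 ⊢
  have hB : B1 % 2 = 1 := by omega
  obtain ⟨c, rfl⟩ : ∃ c, B1 = 2 * c + 1 := ⟨B1 / 2, by omega⟩
  have hk : k % 2 = 1 := by
    by_contra h
    obtain ⟨t, rfl⟩ : ∃ t, k = 2 * t := ⟨k / 2, by omega⟩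
    have : P = 25 + 16 * (5 * c + 4 * c ^ 2 + 2 * t ^ 2) := by
      rw [hP2]
      ring
    omega
  obtain ⟨tk, htk⟩ := odd_sq_form k hk
  have e2 : P = 33 + 16 * c + 64 * (c + c ^ 2 + tk) := by
    rw [hP2]
    linear_combination 8 * htk
  clear hP1 hP2 htk htb htA hk hB e1 h64
  split_ifs with h
  · exact ⟨tA + tb - (c / 2) - 1, by omega⟩
  · exact ⟨tA + tb - ((c + 1) / 2) - 0 - (1 / 2), by omega⟩

theorem case_even (P A1 b1 B1 k : ℤ)
    (hP1 : P = (1 + 8 * A1) ^ 2 + 16 * (2 * b1) ^ 2) (hP2 : P = (1 + 4 * B1) ^ 2 + 8 * k ^ 2)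
    (hP : P % 16 = 1)
    (h64 : (64 : ℤ) ∣ P + 1 + 3 * (2 * (1 + 8 * A1)) - 4 * (2 * (1 + 4 * B1)) - 12 * 0) :
    ∃ z, P + 1 + 3 * (2 * (1 + 8 * A1)) - 4 * (2 * (1 + 4 * B1)) - 12 * 0
      = 64 * ((if P % 32 = 1 then 1 else 0) + (if b1 % 2 = 0 then 1 else 0)) + 128 * z := by
  obtain ⟨tb, htb⟩ := even_sum b1
  obtain ⟨tA, htA⟩ := even_sum A1
  have e1 : P + 1 + 3 * (2 * (1 + 8 * A1)) - 4 * (2 * (1 + 4 * B1)) - 12 * 0
      = 128 * tA + 128 * tb - 64 * b1 - 32 * B1 := by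
    rw [hP1]
    linear_combination 64 * htA + 64 * htb
  rw [e1] at h64 ⊢
  have hB : B1 % 2 = 0 := by omega
  obtain ⟨c, rfl⟩ : ∃ c, B1 = 2 * c := ⟨B1 / 2, by omega⟩
  have hk : k % 2 = 0 := by
    by_contra h
    obtain ⟨tk, htk⟩ := odd_sq_form k (by omega)
    have : P = 9 + 16 * (c + 4 * c ^ 2 + 4 * tk) := by
      rw [hP2]
      linear_combination 8 * htk
    omega
  obtain ⟨k1, rfl⟩ : ∃ k1, k = 2 * k1 := ⟨k / 2, by omega⟩
  have e2 : P = 1 + 16 * c + 32 * (2 * c ^ 2 + k1 ^ 2) := by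
    rw [hP2]
    ring
  clear hP1 hP2 htb htA hk hB e1 h64
  split_ifs with h h' h'
  · exact ⟨tA + tb - (b1 / 2) - (c / 2) - 1, by omega⟩
  · exact ⟨tA + tb - ((b1 + 1) / 2) - (c / 2), by omega⟩
  · exact ⟨tA + tb - (b1 / 2) - ((c + 1) / 2), by omega⟩
  · exact ⟨tA + tb - (b1 + c) / 2, by omega⟩

/-- The explicit terms at a prime. -/
theorem terms_prime (p : ℕ) (hp : p.Prime) (h16 : p % 16 = 1)
    (h64 : (64 : ℤ) ∣ ((ArithmeticFunction.sigma 1 p : ℤ) + 3 * cm 16 p - 4 * cm 8 p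
      - 12 * (r2odd 16 p : ℤ))) : ∃ z : ℤ,
    (ArithmeticFunction.sigma 1 p : ℤ) + 3 * cm 16 p - 4 * cm 8 p - 12 * (r2odd 16 p : ℤ)
      = 64 * sp p + 128 * z := by
  obtain ⟨a, b, ha, hb, hab⟩ := exists_sixteen p hp (by omega)
  obtain ⟨c, k, hc, hk, hck⟩ := exists_eight p hp (by omega)
  have ha' : ((a.toNat : ℕ) : ℤ) = a := Int.toNat_of_nonneg ha.le
  have hb' : ((b.toNat : ℕ) : ℤ) = b := Int.toNat_of_nonneg hb.le
  have hc' : ((c.toNat : ℕ) : ℤ) = c := Int.toNat_of_nonneg hc.le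
  have hk' : ((k.toNat : ℕ) : ℤ) = k := Int.toNat_of_nonneg hk.le
  have e1 := cm_prime p hp 16 (by norm_num) a.toNat b.toNat (by omega) (by omega)
    (by rw [ha', hb', hab]; norm_num)
  have e2 := cm_prime p hp 8 (by norm_num) c.toNat k.toNat (by omega) (by omega)
    (by rw [hc', hk', hck]; norm_num)
  have e3 := r2odd_prime p hp a b ha hb hab
  have ha2 : a % 2 = 1 := by
    by_contra h
    obtain ⟨t, ht⟩ : ∃ t, a = 2 * t := ⟨a / 2, by omega⟩
    rw [ht] at hab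
    have : (p : ℤ) = 2 * (2 * t ^ 2 + 8 * b ^ 2) := by rw [hab]; ring
    omega
  have hc2 : c % 2 = 1 := by
    by_contra h
    obtain ⟨t, ht⟩ : ∃ t, c = 2 * t := ⟨c / 2, by omega⟩
    rw [ht] at hck
    have : (p : ℤ) = 2 * (2 * t ^ 2 + 4 * k ^ 2) := by rw [hck]; ring
    omega
  obtain ⟨A, hA1, hA2, hA3⟩ := chi_val a.toNat (by omega)
  obtain ⟨B, hB1, hB2, hB3⟩ := chi_val c.toNat (by omega)
  rw [ha'] at hA3
  rw [hc'] at hB3
  rw [hA1] at e1
  rw [hB1] at e2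
  have e4 : (ArithmeticFunction.sigma 1 p : ℤ) = p + 1 := by
    rw [ArithmeticFunction.sigma_one_apply, hp.sum_divisors]
    push_cast
    ring
  rw [← hA3] at hab
  rw [← hB3] at hck
  have hp16 : (p : ℤ) % 16 = 1 := by omega
  have hp32 : ((p : ℤ) % 32 = 1) ↔ (p % 32 = 1) := by omega
  obtain ⟨B1, rfl⟩ : ∃ B1, B = 1 + 4 * B1 := ⟨B / 4, by omega⟩
  have hA8 : A % 8 = 1 := by
    obtain ⟨A1, rfl⟩ : ∃ A1, A = 1 + 4 * A1 := ⟨A / 4, by omega⟩
    have h5 : (p : ℤ) = 1 + 8 * A1 + 16 * (A1 ^ 2 + b ^ 2) := by rw [hab]; ring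
    clear hab hck e1 e2 e3 e4 h64 hA1 hA3 hB1 hB3
    omega
  obtain ⟨A1, rfl⟩ : ∃ A1, A = 1 + 8 * A1 := ⟨A / 8, by omega⟩
  rw [e4, e1, e2, e3] at h64 ⊢
  unfold sp
  by_cases hbo : b % 2 = 1
  · rw [if_pos hbo] at h64 ⊢
    have hno : ¬ ∃ x y : ℤ, (p : ℤ) = x ^ 2 + 256 * y ^ 2 := by
      rintro ⟨x, y, hxy⟩
      have h5 := (unique_rep p hp 16 (by norm_num) _ b x (4 * y) hab (by rw [hxy]; ring)).2
      obtain ⟨t, ht⟩ := odd_sq_form b hbo
      have h6 : b ^ 2 = 16 * y ^ 2 := by rw [h5]; ring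
      omega
    rw [if_neg hno]
    obtain ⟨z, hz⟩ := case_odd p A1 b B1 k hbo hab hck hp16 (by exact_mod_cast h64)
    refine ⟨z, ?_⟩
    simp only [hp32] at hz
    rw [Nat.cast_ofNat, hz, add_zero]
  · rw [if_neg hbo] at h64 ⊢
    obtain ⟨b1, rfl⟩ : ∃ b1, b = 2 * b1 := ⟨b / 2, by omega⟩
    have hiff : (∃ x y : ℤ, (p : ℤ) = x ^ 2 + 256 * y ^ 2) ↔ b1 % 2 = 0 := by
      constructor
      · rintro ⟨x, y, hxy⟩
        have h5 := (unique_rep p hp 16 (by norm_num) _ (2 * b1) x (4 * y) hab (by rw [hxy]; ring)).2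
        by_contra h7
        obtain ⟨t, ht⟩ := odd_sq_form b1 (by omega)
        have h6 : b1 ^ 2 = 4 * y ^ 2 := by linarith
        omega
      · intro h
        obtain ⟨b2, rfl⟩ : ∃ b2, b1 = 2 * b2 := ⟨b1 / 2, by omega⟩
        refine ⟨1 + 8 * A1, b2, ?_⟩
        rw [hab]
        ring
    obtain ⟨z, hz⟩ := case_even p A1 b1 B1 k hab hck hp16 (by exact_mod_cast h64)
    refine ⟨z, ?_⟩
    simp only [hp32] at hz
    rw [Nat.cast_zero, hz]
    simp only [hiff]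

end Pool.Agent.H24
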