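import Pool.Agent.H24.Gen

/-!
Elementary identities between theta series.
-/

namespace Pool.Agent.H24

open PowerSeries

/-- The square of an integer as a natural number. -/
def sqN (x : ℤ) : ℕ := x.natAbs ^ 2

theorem sqN_cast (x : ℤ) : (sqN x : ℤ) = x ^ 2 := by
  simp [sqN]

/-- Triangular numbers, indexed by the integers. -/
def tri (j : ℤ) : ℕ := (j * (j + 1) / 2).toNat

theorem two_tri (j : ℤ) : 2 * (tri j : ℤ) = j * (j + 1) := by
  have h1 : 0 ≤ j * (j + 1) := by
    rcases le_or_gt 0 j with h | h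
    · positivity
    · nlinarith
  have h2 : 2 ∣ j * (j + 1) := (Int.even_mul_succ_self j).two_dvd
  have h3 : 0 ≤ j * (j + 1) / 2 := Int.ediv_nonneg h1 (by norm_num)
  rw [tri, Int.toNat_of_nonneg h3]
  omega

/-- The sign of an integer exponent of `-1`. -/
def sg (j : ℤ) : ℤ := if j % 2 = 0 then 1 else -1

theorem sg_mul (a b : ℤ) : sg a * sg b = sg (a + b) := by
  unfold sg
  split_ifs <;> omega

theorem sg_sq (a : ℤ) : sg a * sg a = 1 := by
  unfold sg
  split_ifs <;> norm_num

theorem sg_congr {a b : ℤ} (h : (a - b) % 2 = 0) : sg a = sg b := by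
  unfold sg
  split_ifs <;> first | rfl | omega

theorem sg_congr_neg {a b : ℤ} (h : (a - b) % 2 = 1) : sg a = - sg b := by
  unfold sg
  split_ifs <;> first | rfl | omega

theorem sg_even {a : ℤ} (h : a % 2 = 0) : sg a = 1 := by
  unfold sg
  rw [if_pos h]

theorem sg_odd {a : ℤ} (h : a % 2 = 1) : sg a = -1 := by
  unfold sg
  rw [if_neg (by omega)]

theorem neg_one_pow_sqN (x : ℤ) : (-1 : ℤ) ^ sqN x = sg x := by
  unfold sqN sg
  split_ifs with h
  · rw [pow_two]
    apply Even.neg_one_pow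
    have : Even x.natAbs := by
      rw [Int.natAbs_even, Int.even_iff]
      exact h
    exact this.mul_left _
  · rw [pow_two]
    apply Odd.neg_one_pow
    have : Odd x.natAbs := by
      rw [Int.natAbs_odd, Int.odd_iff]
      omega
    exact this.mul this

theorem Fib_sqN : Fib sqN := by
  intro n
  refine (Set.finite_Icc (-(n : ℤ)) n).subset ?_
  intro x hx
  simp only [Set.mem_ofPred_eq] at hx
  have h1 := sqN_cast x
  rw [hx] at h1
  simp only [Set.mem_Icc]
  constructor <;> nlinarith [sq_nonneg (x - 1), sq_nonneg (x + 1), sq_nonneg x]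

theorem Fib_tri : Fib tri := by
  intro n
  refine (Set.finite_Icc (-(2 * n : ℤ) - 1) (2 * n)).subset ?_
  intro x hx
  simp only [Set.mem_ofPred_eq] at hx
  have h1 := two_tri x
  rw [hx] at h1
  simp only [Set.mem_Icc]
  constructor
  · by_contra h
    nlinarith
  · by_contra h
    nlinarith

theorem Fib.smul {ι : Type*} {d : ι → ℕ} (hd : Fib d) (k : ℕ) (hk : k ≠ 0) :
    Fib (fun i => k * d i) := by
  refine hd.of_le id Function.injective_id (fun i => ?_)
  simp only [id]
  exact Nat.le_mul_of_pos_left _ (Nat.pos_of_ne_zero hk)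

/-- The theta series of the squares. -/
noncomputable def th : PowerSeries ℤ := gen sqN (fun _ => 1)

/-- The theta series with alternating signs. -/
noncomputable def thn : PowerSeries ℤ := gen sqN sg

/-- Twice the generating series of triangular numbers. -/
noncomputable def ps : PowerSeries ℤ := gen tri (fun _ => 1)

/-- Twice the cubic Jacobi series. -/
noncomputable def ph : PowerSeries ℤ := gen tri (fun j => sg j * (2 * j + 1))

/-- Substitution of the square of the variable. -/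
noncomputable abbrev E2 : PowerSeries ℤ →ₐ[ℤ] PowerSeries ℤ := expand 2 (by norm_num)

/-- Substitution of the fourth power of the variable. -/
noncomputable abbrev E4 : PowerSeries ℤ →ₐ[ℤ] PowerSeries ℤ := expand 4 (by norm_num)

/-- Substitution of the eighth power of the variable. -/
noncomputable abbrev E8 : PowerSeries ℤ →ₐ[ℤ] PowerSeries ℤ := expand 8 (by norm_num)

theorem E2_E2 (F : PowerSeries ℤ) : E2 (E2 F) = E4 F :=
  (expand_mul 2 (by norm_num) 2 (by norm_num) F).symm

theorem E4_E2 (F : PowerSeries ℤ) : E4 (E2 F) = E8 F :=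
  (expand_mul 4 (by norm_num) 2 (by norm_num) F).symm

theorem E2_E4 (F : PowerSeries ℤ) : E2 (E4 F) = E8 F :=
  (expand_mul 2 (by norm_num) 4 (by norm_num) F).symm

theorem evalNeg_th : evalNegHom th = thn := by
  rw [th, evalNeg_gen, thn]
  refine gen_congr (fun _ => rfl) (fun x => ?_)
  rw [neg_one_pow_sqN, mul_one]

theorem evalNeg_evalNeg (F : PowerSeries ℤ) : evalNegHom (evalNegHom F) = F := by
  ext n
  rw [coeff_evalNeg, coeff_evalNeg, ← mul_assoc, ← mul_pow]
  simp

theorem evalNeg_thn : evalNegHom thn = th := by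
  rw [← evalNeg_th, evalNeg_evalNeg]

theorem evalNeg_E2 (F : PowerSeries ℤ) : evalNegHom (E2 F) = E2 F := by
  ext n
  rw [coeff_evalNeg, coeff_expand]
  split_ifs with h
  · obtain ⟨m, rfl⟩ := h
    rw [pow_mul]
    simp
  · simp

/-- Splitting a generating series along a predicate. -/
theorem gen_split {ι : Type*} {d : ι → ℕ} (hd : Fib d) (P : ι → Prop) [DecidablePred P]
    (w : ι → ℤ) : gen d w = gen d (fun i => if P i then w i else 0)
      + gen d (fun i => if P i then 0 else w i) := by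
  rw [← gen_add hd]
  refine gen_congr (fun _ => rfl) (fun x => ?_)
  split_ifs <;> simp

theorem th_add_thn : th + thn = 2 * E4 th := by
  rw [th, thn, ← gen_add Fib_sqN, expand_gen]
  have h2 : (2 : PowerSeries ℤ) = ((2 : ℤ) : PowerSeries ℤ) := by norm_num
  rw [h2, ← gen_smul]
  symm
  refine gen_inj (fun x : ℤ => 2 * x) (fun a b h => by simpa using h) ?_ ?_ ?_
  · intro i hi
    refine ⟨i / 2, ?_⟩
    by_contra h
    apply hi
    rw [sg_odd (by omega)]
    norm_num
  · intro k
    zify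
    rw [sqN_cast, sqN_cast]
    ring
  · intro k
    rw [sg_even (by omega)]
    norm_num

theorem th_sub_E4 : th - E4 th = X * E8 ps := by
  have h1 := gen_split Fib_sqN (fun x => x % 2 = 0) (fun _ => 1)
  have h2 : gen sqN (fun i => if i % 2 = 0 then 1 else 0) = E4 th := by
    rw [th, expand_gen]
    symm
    refine gen_inj (fun x : ℤ => 2 * x) (fun a b h => by simpa using h) ?_ ?_ ?_
    · intro i hi
      refine ⟨i / 2, ?_⟩
      by_contra h
      apply hi
      rw [if_neg (by omega)]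
    · intro k
      zify
      rw [sqN_cast, sqN_cast]
      ring
    · intro k
      rw [if_pos (by omega)]
  have h3 : gen sqN (fun i => if i % 2 = 0 then 0 else 1) = X * E8 ps := by
    rw [ps, expand_gen]
    have := X_pow_mul_gen (d := fun i => 8 * tri i) (fun _ => 1) 1
    rw [pow_one] at this
    rw [this]
    symm
    refine gen_inj (fun x : ℤ => 2 * x + 1) (fun a b h => by simpa using h) ?_ ?_ ?_
    · intro i hi
      refine ⟨i / 2, ?_⟩
      by_contra h
      apply hi
      rw [if_pos (by omega)]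
    · intro k
      have := two_tri k
      zify
      rw [sqN_cast]
      linarith
    · intro k
      rw [if_neg (by omega)]
  rw [h2, h3] at h1
  have h4 : th = E4 th + X * E8 ps := h1
  linear_combination h4

theorem th_sq_add : th ^ 2 + thn ^ 2 = 2 * E2 th ^ 2 := by
  rw [th, thn, expand_gen, pow_two, pow_two, pow_two, gen_mul Fib_sqN Fib_sqN,
    gen_mul Fib_sqN Fib_sqN, gen_mul (Fib_sqN.smul 2 (by norm_num)) (Fib_sqN.smul 2 (by norm_num)),
    ← gen_add (Fib_sqN.prod Fib_sqN)]
  have h2 : (2 : PowerSeries ℤ) = ((2 : ℤ) : PowerSeries ℤ) := by norm_num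
  rw [h2, ← gen_smul]
  symm
  refine gen_inj (fun p : ℤ × ℤ => (p.1 + p.2, p.1 - p.2)) ?_ ?_ ?_ ?_
  · rintro ⟨a, b⟩ ⟨c, d⟩ h
    simp only [Prod.mk.injEq] at h ⊢
    omega
  · rintro ⟨a, b⟩ hi
    refine ⟨((a + b) / 2, (a - b) / 2), ?_⟩
    simp only [Prod.mk.injEq]
    by_contra h
    apply hi
    simp only
    rw [sg_mul, sg_odd (by omega)]
    norm_num
  · rintro ⟨a, b⟩
    zify
    simp only [sqN_cast]
    ring
  · rintro ⟨a, b⟩
    simp only
    rw [sg_mul, sg_even (by omega)]
    norm_num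

theorem th_mul_thn : th * thn = E2 thn ^ 2 := by
  have hF := Fib_sqN.prod Fib_sqN
  rw [th, thn, gen_mul Fib_sqN Fib_sqN, gen_split hF (fun p => (p.1 + p.2) % 2 = 0)]
  have h1 : gen (fun p : ℤ × ℤ => sqN p.1 + sqN p.2)
      (fun p => if (p.1 + p.2) % 2 = 0 then 0 else 1 * sg p.2) = 0 := by
    refine gen_anti (Equiv.prodComm ℤ ℤ) ?_ ?_
    · rintro ⟨a, b⟩
      simp only [Equiv.prodComm_apply, Prod.swap_prod_mk]
      ring
    · rintro ⟨a, b⟩
      change (if (b + a) % 2 = 0 then (0 : ℤ) else 1 * sg a)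
        = -(if (a + b) % 2 = 0 then (0 : ℤ) else 1 * sg b)
      by_cases h : (a + b) % 2 = 0
      · rw [if_pos h, if_pos (by omega)]
        norm_num
      · rw [if_neg h, if_neg (by omega), sg_congr_neg (a := a) (b := b) (by omega)]
        norm_num
  rw [h1, add_zero, expand_gen, pow_two,
    gen_mul (Fib_sqN.smul 2 (by norm_num)) (Fib_sqN.smul 2 (by norm_num))]
  symm
  refine gen_inj (fun p : ℤ × ℤ => (p.1 + p.2, p.1 - p.2)) ?_ ?_ ?_ ?_
  · rintro ⟨a, b⟩ ⟨c, d⟩ h
    simp only [Prod.mk.injEq] at h ⊢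
    omega
  · rintro ⟨a, b⟩ hi
    refine ⟨((a + b) / 2, (a - b) / 2), ?_⟩
    simp only [Prod.mk.injEq]
    by_contra h
    apply hi
    simp only
    rw [if_neg (by omega)]
  · rintro ⟨a, b⟩
    zify
    simp only [sqN_cast]
    ring
  · rintro ⟨a, b⟩
    simp only
    rw [if_pos (by omega), sg_mul, one_mul]
    apply sg_congr
    omega

/-- Folding of double sums over pairs of triangular numbers. -/
theorem tri_fold (w : ℤ → ℤ → ℤ) (hw : ∀ i j, w i (-1 - j) = w i j) :
    gen (fun p : ℤ × ℤ => tri p.1 + tri p.2) (fun p => w p.1 p.2)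
      = 2 * gen (fun p : ℤ × ℤ => 2 * tri p.1 + sqN p.2) (fun p => w (p.1 + p.2) (p.1 - p.2)) := by
  have hF := Fib_tri.prod Fib_tri
  rw [gen_split hF (fun p => (p.1 + p.2) % 2 = 0)]
  have h1 : gen (fun p : ℤ × ℤ => tri p.1 + tri p.2)
      (fun p => if (p.1 + p.2) % 2 = 0 then w p.1 p.2 else 0)
      = gen (fun p : ℤ × ℤ => 2 * tri p.1 + sqN p.2) (fun p => w (p.1 + p.2) (p.1 - p.2)) := by
    symm
    refine gen_inj (fun p : ℤ × ℤ => (p.1 + p.2, p.1 - p.2)) ?_ ?_ ?_ ?_
    · rintro ⟨a, b⟩ ⟨c, d⟩ h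
      simp only [Prod.mk.injEq] at h ⊢
      omega
    · rintro ⟨a, b⟩ hi
      refine ⟨((a + b) / 2, (a - b) / 2), ?_⟩
      simp only [Prod.mk.injEq]
      by_contra h
      apply hi
      simp only
      rw [if_neg (by omega)]
    · rintro ⟨a, b⟩
      have h1 := two_tri a
      have h2 := two_tri (a + b)
      have h3 := two_tri (a - b)
      zify
      simp only [sqN_cast]
      linarith
    · rintro ⟨a, b⟩
      simp only
      rw [if_pos (by omega)]
  have h2 : gen (fun p : ℤ × ℤ => tri p.1 + tri p.2)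
      (fun p => if (p.1 + p.2) % 2 = 0 then 0 else w p.1 p.2)
      = gen (fun p : ℤ × ℤ => 2 * tri p.1 + sqN p.2) (fun p => w (p.1 + p.2) (p.1 - p.2)) := by
    symm
    refine gen_inj (fun p : ℤ × ℤ => (p.1 + p.2, -1 - (p.1 - p.2))) ?_ ?_ ?_ ?_
    · rintro ⟨a, b⟩ ⟨c, d⟩ h
      simp only [Prod.mk.injEq] at h ⊢
      omega
    · rintro ⟨a, b⟩ hi
      refine ⟨((a - 1 - b) / 2, (a + 1 + b) / 2), ?_⟩
      simp only [Prod.mk.injEq]
      by_contra h
      apply hi
      simp only
      rw [if_pos (by omega)]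
    · rintro ⟨a, b⟩
      have h1 := two_tri a
      have h2 := two_tri (a + b)
      have h3 := two_tri (-1 - (a - b))
      zify
      simp only [sqN_cast]
      linarith
    · rintro ⟨a, b⟩
      simp only
      rw [if_neg (by omega), hw]
  rw [h1, h2]
  ring

theorem ps_sq : ps ^ 2 = 2 * (th * E2 ps) := by
  rw [ps, pow_two, gen_mul Fib_tri Fib_tri]
  have h := tri_fold (fun _ _ => 1) (fun _ _ => rfl)
  simp only [mul_one] at h ⊢
  rw [h, expand_gen, mul_comm th, th, gen_mul (Fib_tri.smul 2 (by norm_num)) Fib_sqN]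
  simp only [mul_one]

theorem ph_mul_ps : ph * ps = 2 * (E2 ph * thn) := by
  rw [ph, ps, gen_mul Fib_tri Fib_tri]
  have h := tri_fold (fun i _ => sg i * (2 * i + 1)) (fun _ _ => rfl)
  simp only [mul_one] at h ⊢
  rw [h, expand_gen, thn, gen_mul (Fib_tri.smul 2 (by norm_num)) Fib_sqN]
  congr 1
  have hF : Fib (fun p : ℤ × ℤ => 2 * tri p.1 + sqN p.2) :=
    (Fib_tri.smul 2 (by norm_num)).prod Fib_sqN
  have h1 : gen (fun p : ℤ × ℤ => 2 * tri p.1 + sqN p.2)
      (fun p => sg (p.1 + p.2) * (2 * p.2)) = 0 := by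
    refine gen_anti ((Equiv.refl ℤ).prodCongr (Equiv.neg ℤ)) ?_ ?_
    · rintro ⟨a, b⟩
      simp only [Equiv.prodCongr_apply, Equiv.coe_refl, Prod.map_apply, id_eq, Equiv.neg_apply]
      zify
      simp only [sqN_cast]
      ring
    · rintro ⟨a, b⟩
      simp only [Equiv.prodCongr_apply, Equiv.coe_refl, Prod.map_apply, id_eq, Equiv.neg_apply]
      rw [sg_congr (a := a + -b) (b := a + b) (by omega)]
      ring
  have h2 := gen_add hF (fun p => sg p.1 * (2 * p.1 + 1) * sg p.2)
    (fun p => sg (p.1 + p.2) * (2 * p.2))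
  rw [h1, add_zero] at h2
  rw [← h2]
  refine gen_congr (fun _ => rfl) ?_
  rintro ⟨a, b⟩
  simp only
  rw [← sg_mul]
  ring

theorem ph_sq : ph ^ 2 = 2 * (th * (E2 ps + 4 * D (E2 ps)) - 4 * (E2 ps * D th)) := by
  have hF : Fib (fun p : ℤ × ℤ => 2 * tri p.1 + sqN p.2) :=
    (Fib_tri.smul 2 (by norm_num)).prod Fib_sqN
  have h4 : (4 : PowerSeries ℤ) = ((4 : ℤ) : PowerSeries ℤ) := by norm_num
  rw [ph, pow_two, gen_mul Fib_tri Fib_tri]
  have h := tri_fold (fun i j => sg i * (2 * i + 1) * (sg j * (2 * j + 1))) (fun i j => by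
    rw [sg_congr_neg (a := -1 - j) (b := j) (by omega)]
    ring)
  rw [h]
  congr 1
  have e1 : th * (E2 ps + 4 * D (E2 ps)) = gen (fun p : ℤ × ℤ => 2 * tri p.1 + sqN p.2)
      (fun p => 1 + 4 * (2 * tri p.1 : ℤ)) := by
    rw [mul_comm, ps, th, expand_gen, D_gen, h4, ← gen_smul,
      ← gen_add (Fib_tri.smul 2 (by norm_num)),
      gen_mul (Fib_tri.smul 2 (by norm_num)) Fib_sqN]
    refine gen_congr (fun _ => rfl) ?_
    rintro ⟨a, b⟩
    simp only
    push_cast
    ring
  have e2 : 4 * (E2 ps * D th) = gen (fun p : ℤ × ℤ => 2 * tri p.1 + sqN p.2)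
      (fun p => 4 * (sqN p.2 : ℤ)) := by
    rw [ps, th, expand_gen, D_gen, gen_mul (Fib_tri.smul 2 (by norm_num)) Fib_sqN, h4, ← gen_smul]
    refine gen_congr (fun _ => rfl) ?_
    rintro ⟨a, b⟩
    simp only
    ring
  rw [e1, e2, ← gen_sub hF]
  refine gen_congr (fun _ => rfl) ?_
  rintro ⟨a, b⟩
  simp only
  have h1 := two_tri a
  rw [sqN_cast]
  have h2 : sg (a + b) * sg (a - b) = 1 := by
    rw [sg_mul, sg_even (by omega)]
  have h3 : sg (a + b) * (2 * (a + b) + 1) * (sg (a - b) * (2 * (a - b) + 1))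
      = (sg (a + b) * sg (a - b)) * ((2 * (a + b) + 1) * (2 * (a - b) + 1)) := by ring
  rw [h3, h2]
  linarith

end Pool.Agent.H24
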